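import Mathlib
import Pool.Agent.Run7.h489.TM.Loc2

set_option autoImplicit false
set_option linter.unusedSectionVars false

/-!
Approximate factorisations and resultants.
-/

namespace Pool.Agent.Run7.h489.NF

open Polynomial
open Pool.Agent.Run7.h489.TM

variable {K : Type} [Field K]

/-- the values at the approximate zeros -/
theorem newt_val0 (f : AbsoluteValue K ℝ) {g : K[X]} {n : ℕ} (hn : 1 ≤ n) (h0 : g.coeff 0 = 0)
    (h1 : g.coeff 1 ≠ 0) {M : ℝ} (hM : 0 ≤ M) (l : ℕ) : ∃ C : ℝ, 0 ≤ C ∧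
      ∀ (p : K[X]) (ρ : ℝ), 0 ≤ ρ → ρ ≤ 1 → p.natDegree ≤ n →
      (∀ j, f (p.coeff j - g.coeff j) ≤ M * ρ) →
        f (p.eval (newt p (g.coeff 1) 0 l)) ≤ C * ρ ^ (l + 1) := by
  induction l with
  | zero =>
    refine ⟨M, hM, fun p ρ _ _ _ hpg => ?_⟩
    have h2 := hpg 0
    rw [h0, sub_zero] at h2
    show f (p.eval 0) ≤ _
    rw [← coeff_zero_eq_eval_zero, zero_add, pow_one]
    exact h2
  | succ l ih =>
    obtain ⟨C, hC, h⟩ := ih
    obtain ⟨A, hA, hN⟩ := newt_le f hn h0 h1 hM l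
    obtain ⟨A', hA', hN'⟩ := newt_le f hn h0 h1 hM (l + 1)
    obtain ⟨D, hD, hL⟩ := lips f hn h1 hM (max A A')
    refine ⟨D * (1 + A + A') * C, by positivity, fun p ρ hρ0 hρ1 hp hpg => ?_⟩
    have hc : 0 < f (g.coeff 1) := f.pos h1
    have hxy : newt p (g.coeff 1) 0 (l + 1) - newt p (g.coeff 1) 0 l =
        -(p.eval (newt p (g.coeff 1) 0 l) / g.coeff 1) := by
      show newt p (g.coeff 1) 0 l - p.eval (newt p (g.coeff 1) 0 l) / g.coeff 1 -
        newt p (g.coeff 1) 0 l = _
      ring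
    have hx1 := hN' p ρ hρ0 hρ1 hp hpg
    have hy1 := hN p ρ hρ0 hρ1 hp hpg
    have hv := h p ρ hρ0 hρ1 hp hpg
    generalize newt p (g.coeff 1) 0 (l + 1) = x at hxy hx1 ⊢
    generalize newt p (g.coeff 1) 0 l = y at hxy hy1 hv
    have h2 := hL p ρ hρ0 hρ1 hp hpg x y
      ((hx1.trans (mul_le_of_le_one_right hA' hρ1)).trans (le_max_right _ _))
      ((hy1.trans (mul_le_of_le_one_right hA hρ1)).trans (le_max_left _ _))
    have e1 : (x - y) - (p.eval x - p.eval y) / g.coeff 1 = -(p.eval x / g.coeff 1) := by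
      rw [hxy]
      ring
    rw [e1, hxy, f.map_neg, f.map_neg, map_div₀, map_div₀] at h2
    have h3 : f (p.eval x) ≤ D * ((ρ + f x + f y) * f (p.eval y)) := by
      have h4 := mul_le_mul_of_nonneg_right h2 hc.le
      rw [div_mul_cancel₀ _ hc.ne'] at h4
      refine h4.trans (le_of_eq ?_)
      field_simp
    refine h3.trans ?_
    have h5 : (ρ + f x + f y) * f (p.eval y) ≤ ((1 + A + A') * ρ) * (C * ρ ^ (l + 1)) :=
      mul_le_mul (by linarith) hv (f.nonneg _) (by positivity)
    calc D * ((ρ + f x + f y) * f (p.eval y)) ≤ D * (((1 + A + A') * ρ) * (C * ρ ^ (l + 1))) :=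
          mul_le_mul_of_nonneg_left h5 hD
      _ = _ := by ring

theorem newt_val (f : AbsoluteValue K ℝ) {g : K[X]} {n : ℕ} (hn : 1 ≤ n) (hg : g.natDegree ≤ n)
    {α : K} (h0 : g.eval α = 0) (h1 : g.derivative.eval α ≠ 0) {M : ℝ} (hM : 0 ≤ M) (l : ℕ) :
    ∃ C : ℝ, 0 ≤ C ∧ ∀ (p : K[X]) (ρ : ℝ), 0 ≤ ρ → ρ ≤ 1 → p.natDegree ≤ n →
      (∀ j, f (p.coeff j - g.coeff j) ≤ M * ρ) →
        f (newt p (g.derivative.eval α) α l - α) ≤ C * ρ ∧
        f (p.eval (newt p (g.derivative.eval α) α l)) ≤ C * ρ ^ (l + 1) := by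
  obtain ⟨D, hD, hDq⟩ := taylor_close f α n
  obtain ⟨C, hC, h⟩ := newt_val0 f (g := taylor α g) hn (by rw [taylor_coeff_zero, h0])
    (by rw [taylor_coeff_one]; exact h1) (M := D * M) (by positivity) l
  obtain ⟨C', hC', h'⟩ := newt_le f (g := taylor α g) hn (by rw [taylor_coeff_zero, h0])
    (by rw [taylor_coeff_one]; exact h1) (M := D * M) (by positivity) l
  refine ⟨C + C', by positivity, fun p ρ hρ0 hρ1 hp hpg => ?_⟩
  have hcl : ∀ j, f ((taylor α p).coeff j - (taylor α g).coeff j) ≤ D * M * ρ := by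
    intro j
    have h3 := hDq (p - g) (M * ρ) (by positivity)
      ((natDegree_sub_le _ _).trans (max_le hp hg)) (by
        intro j
        rw [coeff_sub]
        exact hpg j) j
    rw [map_sub, coeff_sub] at h3
    linarith
  have h2 := h (taylor α p) ρ hρ0 hρ1 (by rw [natDegree_taylor]; exact hp) hcl
  have h3 := h' (taylor α p) ρ hρ0 hρ1 (by rw [natDegree_taylor]; exact hp) hcl
  rw [taylor_coeff_one] at h2 h3
  rw [taylor_eval, ← newt_taylor] at h2
  have h4 : newt p (g.derivative.eval α) α l - α =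
      newt (taylor α p) (g.derivative.eval α) 0 l := by
    rw [newt_taylor]
    ring
  rw [h4]
  have h5 : 0 ≤ ρ ^ (l + 1) := pow_nonneg hρ0 _
  constructor
  · refine h3.trans (mul_le_mul_of_nonneg_right (by linarith) hρ0)
  · refine h2.trans (mul_le_mul_of_nonneg_right (by linarith) h5)

theorem cb_mul_lin (f : AbsoluteValue K ℝ) {q : K[X]} {B : ℝ}
    (hq : ∀ j, f (q.coeff j) ≤ B) (a b : K) (j : ℕ) :
    f ((C a * (X - C b) * q).coeff j) ≤ f a * (1 + f b) * B := by
  have hB : 0 ≤ B := (f.nonneg _).trans (hq 0)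
  have e1 : C a * (X - C b) * q = C a * (X * q - C b * q) := by ring
  rw [e1, coeff_C_mul, coeff_sub, coeff_C_mul, map_mul, mul_assoc]
  refine mul_le_mul_of_nonneg_left ?_ (f.nonneg _)
  refine (f.sub_le_add _ _).trans ?_
  rw [map_mul, add_mul, one_mul]
  refine add_le_add ?_ (mul_le_mul_of_nonneg_left (hq j) (f.nonneg _))
  rcases j with _ | j
  · rw [mul_coeff_zero, coeff_X_zero, zero_mul, map_zero]
    exact hB
  · rw [coeff_X_mul]
    exact hq j

theorem cb_prod (f : AbsoluteValue K ℝ) {ι : Type} (s : Finset ι) (a b : ι → K) {G : ℝ}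
    (hG : ∀ i ∈ s, f (a i) * (1 + f (b i)) ≤ G) (j : ℕ) :
    f ((∏ i ∈ s, (C (a i) * (X - C (b i)))).coeff j) ≤ G ^ s.card := by
  classical
  induction s using Finset.induction_on generalizing j with
  | empty =>
    rw [Finset.prod_empty, Finset.card_empty, pow_zero, coeff_one]
    split_ifs
    · rw [map_one]
    · rw [map_zero]
      exact zero_le_one
  | insert i s hi ih =>
    rw [Finset.prod_insert hi, Finset.card_insert_of_notMem hi, pow_succ']
    have h1 := ih fun j hj => hG j (Finset.mem_insert_of_mem hj)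
    have h2 := hG i (Finset.mem_insert_self _ _)
    refine (cb_mul_lin f h1 (a i) (b i) j).trans ?_
    refine mul_le_mul_of_nonneg_right h2 ?_
    exact (f.nonneg _).trans (h1 0)

/-- the coefficients of an interpolation polynomial -/
theorem interp_le (f : AbsoluteValue K ℝ) {ι : Type} [DecidableEq ι] (s : Finset ι) (v : ι → K)
    {c B : ℝ} (hc : 0 < c) (hB : 0 ≤ B) (hsep : ∀ i ∈ s, ∀ j ∈ s, i ≠ j → c ≤ f (v i - v j))
    (hb : ∀ i ∈ s, f (v i) ≤ B) {q : K[X]} (hq : q.degree < s.card) {E : ℝ}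
    (hE : ∀ i ∈ s, f (q.eval (v i)) ≤ E) (j : ℕ) :
    f (q.coeff j) ≤ s.card * max 1 ((1 + B) / c) ^ s.card * E := by
  have hinj : Set.InjOn v s := by
    intro i hi j hj hij
    by_contra hne
    have h1 := hsep i hi j hj hne
    rw [hij, sub_self, map_zero] at h1
    linarith
  set G : ℝ := max 1 ((1 + B) / c) with hG
  have hG1 : 1 ≤ G := le_max_left _ _
  conv_lhs => rw [Lagrange.eq_interpolate hinj hq]
  rw [Lagrange.interpolate_apply, finsetSum_coeff]
  refine (f.sum_le _ _).trans ?_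
  have h2 : ∀ i ∈ s, f ((C (q.eval (v i)) * Lagrange.basis s v i).coeff j) ≤ G ^ s.card * E := by
    intro i hi
    rw [coeff_C_mul, map_mul, mul_comm]
    refine mul_le_mul ?_ (hE i hi) (f.nonneg _) (by positivity)
    unfold Lagrange.basis Lagrange.basisDivisor
    have h3 := cb_prod f (s.erase i) (fun j => (v i - v j)⁻¹) v (G := G) (by
      intro j hj
      rw [Finset.mem_erase] at hj
      have h4 := hsep i hi j hj.2 (Ne.symm hj.1)
      have h5 := hb j hj.2
      refine le_trans ?_ (le_max_right _ _)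
      rw [map_inv₀, inv_mul_eq_div]
      exact div_le_div₀ (by linarith) (by linarith) hc h4) j
    refine h3.trans ?_
    exact pow_le_pow_right₀ hG1 (Finset.card_le_card (Finset.erase_subset _ _))
  refine (Finset.sum_le_sum h2).trans ?_
  rw [Finset.sum_const, nsmul_eq_mul]
  apply le_of_eq
  ring

theorem prod_sub_le (f : AbsoluteValue K ℝ) {ι : Type} (t : Finset ι) (a b : ι → K) (s : ι → ℝ)
    {δ : ℝ} (hδ : 0 ≤ δ) (ha : ∀ i ∈ t, f (a i) ≤ s i) (hb : ∀ i ∈ t, f (b i) ≤ s i)
    (hab : ∀ i ∈ t, f (a i - b i) ≤ δ * s i) :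
    f (∏ i ∈ t, a i - ∏ i ∈ t, b i) ≤ t.card * δ * ∏ i ∈ t, s i := by
  classical
  induction t using Finset.induction_on with
  | empty => simp
  | insert i t hi ih =>
    rw [Finset.prod_insert hi, Finset.prod_insert hi, Finset.prod_insert hi,
      Finset.card_insert_of_notMem hi]
    have h1 := ih (fun j hj => ha j (Finset.mem_insert_of_mem hj))
      (fun j hj => hb j (Finset.mem_insert_of_mem hj))
      (fun j hj => hab j (Finset.mem_insert_of_mem hj))
    have h2 := ha i (Finset.mem_insert_self _ _)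
    have h3 := hab i (Finset.mem_insert_self _ _)
    have h4 : f (∏ j ∈ t, b j) ≤ ∏ j ∈ t, s j := by
      rw [map_prod]
      exact Finset.prod_le_prod (fun _ _ => f.nonneg _) fun j hj =>
        hb j (Finset.mem_insert_of_mem hj)
    have e1 : a i * ∏ j ∈ t, a j - b i * ∏ j ∈ t, b j =
        a i * (∏ j ∈ t, a j - ∏ j ∈ t, b j) + (a i - b i) * ∏ j ∈ t, b j := by ring
    rw [e1]
    refine (f.add_le _ _).trans ?_
    rw [map_mul, map_mul]
    have hs0 : 0 ≤ s i := (f.nonneg _).trans h2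
    have h5 : f (a i) * f (∏ j ∈ t, a j - ∏ j ∈ t, b j) ≤
        s i * (t.card * δ * ∏ j ∈ t, s j) := mul_le_mul h2 h1 (f.nonneg _) hs0
    have h6 : f (a i - b i) * f (∏ j ∈ t, b j) ≤ δ * s i * ∏ j ∈ t, s j :=
      mul_le_mul h3 h4 (f.nonneg _) (by positivity)
    push_cast
    calc f (a i) * f (∏ j ∈ t, a j - ∏ j ∈ t, b j) + f (a i - b i) * f (∏ j ∈ t, b j) ≤
          s i * (t.card * δ * ∏ j ∈ t, s j) + δ * s i * ∏ j ∈ t, s j := add_le_add h5 h6
      _ = _ := by ring

theorem det_sub_le (f : AbsoluteValue K ℝ) {n : ℕ} (A B : Matrix (Fin n) (Fin n) K)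
    (s : Fin n → ℝ) {δ : ℝ} (hδ : 0 ≤ δ) (hA : ∀ i j, f (A i j) ≤ s j)
    (hB : ∀ i j, f (B i j) ≤ s j) (hAB : ∀ i j, f (A i j - B i j) ≤ δ * s j) :
    f (A.det - B.det) ≤ n.factorial * (n * δ * ∏ j, s j) := by
  rw [Matrix.det_apply', Matrix.det_apply', ← Finset.sum_sub_distrib]
  refine (f.sum_le _ _).trans ?_
  have h1 : ∀ σ ∈ (Finset.univ : Finset (Equiv.Perm (Fin n))),
      f (((Equiv.Perm.sign σ : ℤ) : K) * ∏ i, A (σ i) i -
        ((Equiv.Perm.sign σ : ℤ) : K) * ∏ i, B (σ i) i) ≤ n * δ * ∏ j, s j := by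
    intro σ _
    rw [← mul_sub, map_mul]
    have h2 : f ((Equiv.Perm.sign σ : ℤ) : K) = 1 := by
      rcases Int.units_eq_one_or (Equiv.Perm.sign σ) with h | h
      · rw [h, Units.val_one, Int.cast_one, map_one]
      · rw [h, Units.val_neg, Units.val_one, Int.cast_neg, Int.cast_one, f.map_neg, map_one]
    rw [h2, one_mul]
    have h3 := prod_sub_le f Finset.univ (fun i => A (σ i) i) (fun i => B (σ i) i) s hδ
      (fun i _ => hA _ _) (fun i _ => hB _ _) (fun i _ => hAB _ _)
    rwa [Finset.card_univ, Fintype.card_fin] at h3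
  refine (Finset.sum_le_sum h1).trans ?_
  rw [Finset.sum_const, Finset.card_univ, Fintype.card_perm, Fintype.card_fin, nsmul_eq_mul]

/-- resultants of nearby polynomials -/
theorem res_sub_le (f : AbsoluteValue K ℝ) {p p' q : K[X]} {N d : ℕ} {A B δ : ℝ} (hA : 1 ≤ A)
    (hB : 0 ≤ B) (hδ : 0 ≤ δ) (hp : ∀ j, f (p.coeff j) ≤ A) (hp' : ∀ j, f (p'.coeff j) ≤ A)
    (hpp : ∀ j, f (p.coeff j - p'.coeff j) ≤ δ) (hq : ∀ j, f (q.coeff j) ≤ B) :
    f (resultant p q N d - resultant p' q N d) ≤
      (N + d).factorial * ((N + d : ℕ) * δ * (B ^ N * A ^ d)) := by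
  have hA0 : 0 ≤ A := by linarith
  set s : Fin (N + d) → ℝ := fun j => j.addCases (fun _ => B) (fun _ => A) with hs
  have hprod : ∏ j, s j = B ^ N * A ^ d := by
    rw [Fin.prod_univ_add]
    simp only [hs, Fin.addCases_left, Fin.addCases_right, Finset.prod_const, Finset.card_univ,
      Fintype.card_fin]
  rw [← hprod]
  unfold resultant
  refine det_sub_le f _ _ s hδ ?_ ?_ ?_
  · intro i j
    induction j using Fin.addCases with
    | left j =>
      simp only [sylvester, Matrix.of_apply, Fin.addCases_left, hs]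
      split_ifs
      · exact hq _
      · rw [map_zero]
        exact hB
    | right j =>
      simp only [sylvester, Matrix.of_apply, Fin.addCases_right, hs]
      split_ifs
      · exact hp _
      · rw [map_zero]
        exact hA0
  · intro i j
    induction j using Fin.addCases with
    | left j =>
      simp only [sylvester, Matrix.of_apply, Fin.addCases_left, hs]
      split_ifs
      · exact hq _
      · rw [map_zero]
        exact hB
    | right j =>
      simp only [sylvester, Matrix.of_apply, Fin.addCases_right, hs]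
      split_ifs
      · exact hp' _
      · rw [map_zero]
        exact hA0
  · intro i j
    induction j using Fin.addCases with
    | left j =>
      simp only [sylvester, Matrix.of_apply, Fin.addCases_left, hs]
      rw [sub_self, map_zero]
      positivity
    | right j =>
      simp only [sylvester, Matrix.of_apply, Fin.addCases_right, hs]
      split_ifs
      · refine (hpp _).trans ?_
        exact le_mul_of_one_le_right hδ hA
      · rw [sub_self, map_zero]
        positivity

end Pool.Agent.Run7.h489.NF
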