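import Mathlib
import Pool.Agent.Run7.h489.NF.Val

set_option autoImplicit false
set_option linter.unusedSectionVars false

/-!
The resultant near to a polynomial with simple zeros.
-/

namespace Pool.Agent.Run7.h489.NF

open Polynomial
open Pool.Agent.Run7.h489.TM

variable {K : Type} [Field K]

theorem res_split {ι : Type} (s : Finset ι) (y : ι → K) (a : K) {q : K[X]} {N d : ℕ}
    (hN : s.card = N) (hq : q.natDegree ≤ d) :
    resultant (C a * ∏ i ∈ s, (X - C (y i))) q N d = a ^ d * ∏ i ∈ s, q.eval (y i) := by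
  rw [resultant_C_mul_left]
  congr 1
  have h1 : (∏ i ∈ s, (X - C (y i))).natDegree = N := by
    rw [natDegree_prod_of_monic _ _ fun i _ => monic_X_sub_C _]
    simp only [natDegree_X_sub_C, Finset.sum_const, smul_eq_mul, mul_one, hN]
  have h2 := resultant_prod_left s (fun i => X - C (y i)) q d (by
    simp only [leadingCoeff_X_sub_C, Finset.prod_const_one]
    exact one_ne_zero) hq
  rw [h1] at h2
  rw [h2]
  refine Finset.prod_congr rfl fun i _ => ?_
  rw [natDegree_X_sub_C, resultant_X_sub_C_left _ _ _ hq]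

/-- the nodes near to a polynomial with simple zeros -/
noncomputable def node (p g : K[X]) (L : ℕ) {ι : Type} (γ : ι → K) : K ⊕ ι → K :=
  Sum.elim (fun β => newt p (g.derivative.eval β) β L) γ

theorem deriv_ne {g : K[X]} (hsep : g.Separable) {β : K} (h0 : g.eval β = 0) :
    g.derivative.eval β ≠ 0 := by
  intro h1
  obtain ⟨a, b, hab⟩ := hsep
  have h3 := congrArg (Polynomial.eval β) hab
  rw [Polynomial.eval_add, Polynomial.eval_mul, Polynomial.eval_mul, h0, h1, mul_zero,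
    mul_zero, add_zero, Polynomial.eval_one] at h3
  exact zero_ne_one h3

theorem near_res [DecidableEq K] (f : AbsoluteValue K ℝ) {g : K[X]} {N : ℕ} (d : ℕ) (hN : 1 ≤ N)
    (hg : g.natDegree = N) (hs : g.Splits) (hsep : g.Separable)
    {M : ℝ} (hM : 0 ≤ M) {ι : Type} [Fintype ι] (γ : ι → K) (hγ : Function.Injective γ)
    (hγg : ∀ i, g.eval (γ i) ≠ 0) (L : ℕ) :
    ∃ ρ₀ c A : ℝ, 0 < ρ₀ ∧ ρ₀ ≤ 1 ∧ 0 < c ∧ 1 ≤ A ∧ ∀ (p : K[X]) (ρ : ℝ), 0 ≤ ρ → ρ ≤ ρ₀ →
      p.natDegree ≤ N → (∀ j, f (p.coeff j - g.coeff j) ≤ M * ρ) →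
      (∀ a ∈ g.roots.toFinset.disjSum Finset.univ, ∀ b ∈ g.roots.toFinset.disjSum Finset.univ,
        a ≠ b → c ≤ f (node p g L γ a - node p g L γ b)) ∧
      (∀ a ∈ g.roots.toFinset.disjSum Finset.univ, f (node p g L γ a) ≤ A) ∧
      ∀ (q : K[X]) (B : ℝ), q.natDegree ≤ d → 0 ≤ B → (∀ j, f (q.coeff j) ≤ B) →
        ∏ β ∈ g.roots.toFinset, f (q.eval (node p g L γ (Sum.inl β))) ≤
          A * (f (resultant p q N d) + ρ ^ (L + 1) * B ^ N) := by
  classical
  have hg0 : g ≠ 0 := by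
    rintro rfl
    rw [natDegree_zero] at hg
    omega
  obtain ⟨s, hsdef⟩ : ∃ s : Finset K, s = g.roots.toFinset := ⟨_, rfl⟩
  rw [← hsdef]
  have hroot : ∀ β ∈ s, g.eval β = 0 := fun β hβ =>
    (mem_roots hg0).1 (Multiset.mem_toFinset.1 (hsdef ▸ hβ))
  have hcard : s.card = N := by
    rw [hsdef, Multiset.toFinset_card_of_nodup (nodup_roots hsep), ← hg]
    exact hs.natDegree_eq_card_roots.symm
  -- the constants
  have hch : ∀ β : K, ∃ C : ℝ, 0 ≤ C ∧ (β ∈ s → ∀ (p : K[X]) (ρ : ℝ), 0 ≤ ρ → ρ ≤ 1 →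
      p.natDegree ≤ N → (∀ j, f (p.coeff j - g.coeff j) ≤ M * ρ) →
        f (newt p (g.derivative.eval β) β L - β) ≤ C * ρ ∧
        f (p.eval (newt p (g.derivative.eval β) β L)) ≤ C * ρ ^ (L + 1)) := by
    intro β
    by_cases hβ : β ∈ s
    · obtain ⟨C, hC, h⟩ := newt_val f hN hg.le (hroot β hβ) (deriv_ne hsep (hroot β hβ)) hM L
      exact ⟨C, hC, fun _ => h⟩
    · exact ⟨0, le_rfl, fun h => absurd h hβ⟩
  choose C₀ hC₀ hC using hch
  obtain ⟨D, hD⟩ : ∃ D : ℝ, D = ∑ β ∈ s, C₀ β := ⟨_, rfl⟩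
  have hDle : ∀ β ∈ s, C₀ β ≤ D := fun β hβ => by
    rw [hD]
    exact Finset.single_le_sum (f := C₀) (fun i _ => hC₀ i) hβ
  have hD0 : 0 ≤ D := by
    rw [hD]
    exact Finset.sum_nonneg fun i _ => hC₀ i
  -- separation of the limits
  obtain ⟨T, hT⟩ : ∃ T : Finset (K ⊕ ι), T = s.disjSum Finset.univ := ⟨_, rfl⟩
  obtain ⟨w, hw1, hw2⟩ : ∃ w : K ⊕ ι → K, (∀ β, w (Sum.inl β) = β) ∧ ∀ i, w (Sum.inr i) = γ i :=
    ⟨Sum.elim id γ, fun _ => rfl, fun _ => rfl⟩
  have hwne : ∀ a ∈ T, ∀ b ∈ T, a ≠ b → w a ≠ w b := by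
    intro a ha b hb hab
    rw [hT] at ha hb
    rcases a with a | a <;> rcases b with b | b
    · rw [hw1, hw1]
      exact fun h => hab (congrArg _ h)
    · rw [hw1, hw2]
      intro h
      apply hγg b
      rw [← h]
      exact hroot a (Finset.inl_mem_disjSum.1 ha)
    · rw [hw1, hw2]
      intro h
      apply hγg a
      rw [h]
      exact hroot b (Finset.inl_mem_disjSum.1 hb)
    · rw [hw2, hw2]
      exact fun h => hab (congrArg _ (hγ h))
  obtain ⟨c, hc0, hc⟩ : ∃ c : ℝ, 0 < c ∧ ∀ a ∈ T, ∀ b ∈ T, a ≠ b → c ≤ f (w a - w b) := by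
    have h1 : ∀ P : (K ⊕ ι) × (K ⊕ ι), ∃ c : ℝ, 0 < c ∧ (P.1 ∈ T → P.2 ∈ T → P.1 ≠ P.2 →
        c ≤ f (w P.1 - w P.2)) := by
      intro P
      by_cases h : P.1 ∈ T ∧ P.2 ∈ T ∧ P.1 ≠ P.2
      · exact ⟨f (w P.1 - w P.2), f.pos (sub_ne_zero.2 (hwne _ h.1 _ h.2.1 h.2.2)),
          fun _ _ _ => le_rfl⟩
      · exact ⟨1, one_pos, fun h1 h2 h3 => absurd ⟨h1, h2, h3⟩ h⟩
    choose cc hcc0 hcc using h1
    rcases (T ×ˢ T).eq_empty_or_nonempty with h | h
    · refine ⟨1, one_pos, fun a ha b hb _ => ?_⟩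
      have : (a, b) ∈ T ×ˢ T := Finset.mem_product.2 ⟨ha, hb⟩
      rw [h] at this
      exact absurd this (Finset.notMem_empty _)
    · obtain ⟨P, hP, hmin⟩ := Finset.exists_min_image (T ×ˢ T) cc h
      exact ⟨cc P, hcc0 P, fun a ha b hb hab =>
        (hmin (a, b) (Finset.mem_product.2 ⟨ha, hb⟩)).trans (hcc (a, b) ha hb hab)⟩
  obtain ⟨W, hW0, hW⟩ : ∃ W : ℝ, 0 ≤ W ∧ ∀ a ∈ T, f (w a) ≤ W :=
    ⟨∑ a ∈ T, f (w a), Finset.sum_nonneg fun _ _ => f.nonneg _, fun a ha =>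
      Finset.single_le_sum (f := fun a => f (w a)) (fun _ _ => f.nonneg _) ha⟩
  -- bounds for the coefficients
  obtain ⟨A1, hA1, hA1g⟩ : ∃ A1 : ℝ, 1 ≤ A1 ∧ ∀ j, f (g.coeff j) + M ≤ A1 := by
    refine ⟨1 + M + ∑ j ∈ Finset.range (N + 1), f (g.coeff j), ?_, fun j => ?_⟩
    · have : 0 ≤ ∑ j ∈ Finset.range (N + 1), f (g.coeff j) :=
        Finset.sum_nonneg fun _ _ => f.nonneg _
      linarith
    · by_cases hj : j < N + 1
      · have := Finset.single_le_sum (f := fun j => f (g.coeff j)) (fun _ _ => f.nonneg _)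
          (Finset.mem_range.2 hj)
        linarith
      · rw [coeff_eq_zero_of_natDegree_lt (by omega), map_zero]
        have : 0 ≤ ∑ j ∈ Finset.range (N + 1), f (g.coeff j) :=
          Finset.sum_nonneg fun _ _ => f.nonneg _
        linarith
  obtain ⟨G, hG⟩ : ∃ G : ℝ, G = N * max 1 ((1 + (W + 1)) / (c / 2)) ^ N * D := ⟨_, rfl⟩
  have hG0 : 0 ≤ G := by
    rw [hG]
    positivity
  obtain ⟨lc, hlc0, hlc⟩ : ∃ lc : ℝ, 0 < lc ∧ lc ≤ f (g.coeff N) := by
    refine ⟨f (g.coeff N), f.pos ?_, le_rfl⟩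
    rw [← hg]
    exact leadingCoeff_ne_zero.2 hg0
  obtain ⟨ρ₀, hρ₀, hρ₀1, hρ₀D, hρ₀M⟩ : ∃ ρ₀ : ℝ, 0 < ρ₀ ∧ ρ₀ ≤ 1 ∧ D * ρ₀ ≤ min 1 (c / 4) ∧
      M * ρ₀ ≤ lc / 2 := by
    refine ⟨min 1 (min (min 1 (c / 4) / (D + 1)) (lc / 2 / (M + 1))), by positivity,
      min_le_left _ _, ?_, ?_⟩
    · have h1 : min 1 (min (min 1 (c / 4) / (D + 1)) (lc / 2 / (M + 1))) ≤
        min 1 (c / 4) / (D + 1) := (min_le_right _ _).trans (min_le_left _ _)
      have h2 : 0 ≤ min 1 (c / 4) := by positivity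
      rw [le_div_iff₀ (by linarith)] at h1
      have h3 : 0 ≤ min 1 (min (min 1 (c / 4) / (D + 1)) (lc / 2 / (M + 1))) := by positivity
      nlinarith
    · have h1 : min 1 (min (min 1 (c / 4) / (D + 1)) (lc / 2 / (M + 1))) ≤
        lc / 2 / (M + 1) := (min_le_right _ _).trans (min_le_right _ _)
      rw [le_div_iff₀ (by linarith)] at h1
      have h3 : 0 ≤ min 1 (min (min 1 (c / 4) / (D + 1)) (lc / 2 / (M + 1))) := by positivity
      nlinarith
  have hA10 : 0 ≤ A1 := by linarith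
  obtain ⟨E, hE⟩ : ∃ E : ℝ, E = (N + d).factorial * ((N + d : ℕ) * G * (A1 + G) ^ d) := ⟨_, rfl⟩
  have hE0 : 0 ≤ E := by
    rw [hE]
    positivity
  obtain ⟨U, hU⟩ : ∃ U : ℝ, U = (2 / lc) ^ d := ⟨_, rfl⟩
  have hU0 : 0 ≤ U := by
    rw [hU]
    positivity
  refine ⟨ρ₀, c / 2, 1 + (W + 1) + U * (1 + E), hρ₀, hρ₀1, by linarith, ?_, ?_⟩
  · have : 0 ≤ U * (1 + E) := by positivity
    linarith
  intro p ρ hρ0 hρ hp hpg
  have hρ1 : ρ ≤ 1 := hρ.trans hρ₀1
  have hDρ : D * ρ ≤ min 1 (c / 4) := (mul_le_mul_of_nonneg_left hρ hD0).trans hρ₀D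
  have hclose : ∀ a ∈ T, f (node p g L γ a - w a) ≤ min 1 (c / 4) := by
    intro a ha
    rcases a with β | i
    · have hβ : β ∈ s := by
        rw [hT] at ha
        exact Finset.inl_mem_disjSum.1 ha
      rw [hw1]
      refine ((hC β hβ p ρ hρ0 hρ1 hp hpg).1).trans ?_
      exact (mul_le_mul_of_nonneg_right (hDle β hβ) hρ0).trans hDρ
    · rw [hw2]
      show f (γ i - γ i) ≤ _
      rw [sub_self, map_zero]
      positivity
  have hbd : ∀ a ∈ T, f (node p g L γ a) ≤ W + 1 := by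
    intro a ha
    have h1 : node p g L γ a = w a + (node p g L γ a - w a) := by ring
    rw [h1]
    refine (f.add_le _ _).trans ?_
    have h2 := hclose a ha
    have h3 := min_le_left (1 : ℝ) (c / 4)
    have h4 := hW a ha
    linarith
  have hsp : ∀ a ∈ T, ∀ b ∈ T, a ≠ b → c / 2 ≤ f (node p g L γ a - node p g L γ b) := by
    intro a ha b hb hab
    have h1 := hc a ha b hb hab
    have h2 : w a - w b = (node p g L γ a - node p g L γ b) -
        ((node p g L γ a - w a) - (node p g L γ b - w b)) := by ring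
    rw [h2] at h1
    have h3 := f.sub_le_add (node p g L γ a - node p g L γ b)
      ((node p g L γ a - w a) - (node p g L γ b - w b))
    have h4 := f.sub_le_add (node p g L γ a - w a) (node p g L γ b - w b)
    have h5 := hclose a ha
    have h6 := hclose b hb
    have h7 := min_le_right (1 : ℝ) (c / 4)
    linarith
  rw [← hT]
  refine ⟨hsp, fun a ha => ?_, ?_⟩
  · have : 0 ≤ U * (1 + E) := by positivity
    have := hbd a ha
    linarith
  intro q B hq hB hqB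
  have hinT : ∀ β ∈ s, (Sum.inl β : K ⊕ ι) ∈ T := fun β hβ => by
    rw [hT]
    exact Finset.inl_mem_disjSum.2 hβ
  obtain ⟨y, hy⟩ : ∃ y : K → K, y = fun β => node p g L γ (Sum.inl β) := ⟨_, rfl⟩
  obtain ⟨p', hp'⟩ : ∃ p' : K[X], p' = C (p.coeff N) * ∏ β ∈ s, (X - C (y β)) := ⟨_, rfl⟩
  obtain ⟨e, he⟩ : ∃ e : K[X], e = p - p' := ⟨_, rfl⟩
  have hmonic : (∏ β ∈ s, (X - C (y β))).Monic := monic_prod_of_monic _ _ fun i _ => monic_X_sub_C _
  have hndeg : (∏ β ∈ s, (X - C (y β))).natDegree = N := by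
    rw [natDegree_prod_of_monic _ _ fun i _ => monic_X_sub_C _]
    simp only [natDegree_X_sub_C, Finset.sum_const, smul_eq_mul, mul_one, hcard]
  have hedeg : e.degree < s.card := by
    rw [hcard, degree_lt_iff_coeff_zero]
    intro j hj
    rw [he, coeff_sub, hp', coeff_C_mul]
    rcases hj.eq_or_lt with rfl | hj
    · have h1 : (∏ β ∈ s, (X - C (y β))).coeff N = 1 := by
        have := hmonic.coeff_natDegree
        rwa [hndeg] at this
      rw [h1, mul_one, sub_self]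
    · rw [coeff_eq_zero_of_natDegree_lt (p := p) (by omega),
        coeff_eq_zero_of_natDegree_lt (p := ∏ β ∈ s, (X - C (y β))) (by omega), mul_zero, sub_zero]
  have heval : ∀ β ∈ s, f (e.eval (y β)) ≤ D * ρ ^ (L + 1) := by
    intro β hβ
    have h1 : e.eval (y β) = p.eval (y β) := by
      rw [he, hp', eval_sub, eval_mul, eval_prod, Finset.prod_eq_zero hβ, mul_zero, sub_zero]
      rw [eval_sub, eval_X, eval_C, sub_self]
    rw [h1, hy]
    refine ((hC β hβ p ρ hρ0 hρ1 hp hpg).2).trans ?_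
    exact mul_le_mul_of_nonneg_right (hDle β hβ) (pow_nonneg hρ0 _)
  have hecoeff : ∀ j, f (e.coeff j) ≤ G * ρ ^ (L + 1) := by
    intro j
    have h1 := interp_le f s y (c := c / 2) (B := W + 1) (by linarith) (by linarith) (by
      intro i hi j hj hij
      rw [hy]
      exact hsp _ (hinT i hi) _ (hinT j hj) fun h => hij (Sum.inl_injective h)) (by
      intro i hi
      rw [hy]
      exact hbd _ (hinT i hi)) hedeg heval j
    rw [hcard] at h1
    refine h1.trans (le_of_eq ?_)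
    rw [hG]
    ring
  have hρL : ρ ^ (L + 1) ≤ 1 := pow_le_one₀ hρ0 hρ1
  have hρL0 : 0 ≤ ρ ^ (L + 1) := pow_nonneg hρ0 _
  have hpA : ∀ j, f (p.coeff j) ≤ A1 := by
    intro j
    have h1 : p.coeff j = g.coeff j + (p.coeff j - g.coeff j) := by ring
    rw [h1]
    refine (f.add_le _ _).trans ?_
    have h2 := hpg j
    have h3 : M * ρ ≤ M := mul_le_of_le_one_right hM hρ1
    have h4 := hA1g j
    linarith
  have hGρ : G * ρ ^ (L + 1) ≤ G := mul_le_of_le_one_right hG0 hρL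
  have hp'A : ∀ j, f (p'.coeff j) ≤ A1 + G := by
    intro j
    have h1 : p'.coeff j = p.coeff j - e.coeff j := by
      rw [he, coeff_sub]
      ring
    rw [h1]
    refine (f.sub_le_add _ _).trans ?_
    have h2 := hpA j
    have h3 := hecoeff j
    linarith
  have h1 := res_sub_le f (N := N) (d := d) (A := A1 + G) (by linarith) hB
    (by positivity : 0 ≤ G * ρ ^ (L + 1)) (fun j => (hpA j).trans (by linarith)) hp'A (fun j => by
      rw [← coeff_sub, ← he]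
      exact hecoeff j) hqB
  have h2 : resultant p' q N d = p.coeff N ^ d * ∏ β ∈ s, q.eval (y β) := by
    rw [hp']
    exact res_split s y _ hcard hq
  have hpN : lc / 2 ≤ f (p.coeff N) := by
    have h6 : g.coeff N = p.coeff N - (p.coeff N - g.coeff N) := by ring
    have h7 := f.sub_le_add (p.coeff N) (p.coeff N - g.coeff N)
    rw [← h6] at h7
    have h8 := hpg N
    have h9 : M * ρ ≤ lc / 2 := (mul_le_mul_of_nonneg_left hρ hM).trans hρ₀M
    linarith
  obtain ⟨PP, hPP⟩ : ∃ PP : ℝ, PP = ∏ β ∈ s, f (q.eval (node p g L γ (Sum.inl β))) := ⟨_, rfl⟩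
  have hPP0 : 0 ≤ PP := by
    rw [hPP]
    exact Finset.prod_nonneg fun _ _ => f.nonneg _
  have h3 : (lc / 2) ^ d * PP ≤ f (resultant p' q N d) := by
    rw [h2, map_mul, map_pow, map_prod, hPP, hy]
    refine mul_le_mul_of_nonneg_right ?_ (Finset.prod_nonneg fun _ _ => f.nonneg _)
    exact pow_le_pow_left₀ (by positivity) hpN _
  have h4 : f (resultant p' q N d) ≤ f (resultant p q N d) +
      f (resultant p q N d - resultant p' q N d) := by
    have := f.sub_le_add (resultant p q N d) (resultant p q N d - resultant p' q N d)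
    rwa [sub_sub_cancel] at this
  have h5 : (N + d).factorial * ((N + d : ℕ) * (G * ρ ^ (L + 1)) * (B ^ N * (A1 + G) ^ d)) =
      E * (ρ ^ (L + 1) * B ^ N) := by
    rw [hE]
    ring
  rw [h5] at h1
  have h7 : 0 ≤ ρ ^ (L + 1) * B ^ N := by positivity
  have h8 : PP = U * ((lc / 2) ^ d * PP) := by
    rw [hU, ← mul_assoc, ← mul_pow]
    have : 2 / lc * (lc / 2) = 1 := by field_simp
    rw [this, one_pow, one_mul]
  rw [← hPP]
  obtain ⟨r, hr⟩ : ∃ r : ℝ, r = f (resultant p q N d) := ⟨_, rfl⟩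
  have hr0 : 0 ≤ r := by
    rw [hr]
    exact f.nonneg _
  rw [← hr] at h4 ⊢
  have h9 : PP ≤ U * (r + E * (ρ ^ (L + 1) * B ^ N)) := by
    rw [h8]
    exact mul_le_mul_of_nonneg_left (by linarith) hU0
  have h10 : r + E * (ρ ^ (L + 1) * B ^ N) ≤ (1 + E) * (r + ρ ^ (L + 1) * B ^ N) := by
    have h11 : 0 ≤ E * r := by positivity
    linarith
  have h11 : 0 ≤ (1 + (W + 1)) * (r + ρ ^ (L + 1) * B ^ N) := by positivity
  have h12 := mul_le_mul_of_nonneg_left h10 hU0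
  calc PP ≤ U * ((1 + E) * (r + ρ ^ (L + 1) * B ^ N)) := h9.trans h12
    _ = U * (1 + E) * (r + ρ ^ (L + 1) * B ^ N) := by ring
    _ ≤ _ := by
      rw [add_mul]
      linarith

/-- the selection of the smallest values -/
theorem select (f : AbsoluteValue K ℝ) {α : Type} [DecidableEq α] (T : Finset α) (z : α → K)
    {c A : ℝ} (hc : 0 < c) (hA : 0 ≤ A)
    (hsep : ∀ a ∈ T, ∀ b ∈ T, a ≠ b → c ≤ f (z a - z b)) (hb : ∀ a ∈ T, f (z a) ≤ A) {d : ℕ}
    (hd : d + 1 ≤ T.card) {q : K[X]} (hq : q.natDegree ≤ d) (hne : ∀ a ∈ T, q.eval (z a) ≠ 0) :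
    ∃ J ⊆ T, J.card = d + 1 ∧ ∀ j, q.coeff j ≠ 0 → ∀ a ∈ T, a ∉ J →
      Real.log (f (q.coeff j)) ≤ Real.log ((d + 1) * max 1 ((1 + A) / c) ^ (d + 1)) +
        Real.log (f (q.eval (z a))) := by
  obtain ⟨J, hJ, hmin⟩ := Finset.exists_min_image (T.powersetCard (d + 1))
    (fun J => ∑ a ∈ J, Real.log (f (q.eval (z a)))) (Finset.powersetCard_nonempty.2 hd)
  rw [Finset.mem_powersetCard] at hJ
  obtain ⟨hJT, hJc⟩ := hJ
  refine ⟨J, hJT, hJc, fun j hj a ha haJ => ?_⟩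
  have hJne : J.Nonempty := Finset.card_pos.1 (by omega)
  obtain ⟨j0, hj0, hmax⟩ := Finset.exists_max_image J (fun a => f (q.eval (z a))) hJne
  have hdeg : q.degree < J.card := by
    rw [hJc]
    exact (degree_le_of_natDegree_le hq).trans_lt (by exact_mod_cast Nat.lt_succ_self d)
  have h1 := interp_le f J z hc hA (fun i hi j hj hij => hsep i (hJT hi) j (hJT hj) hij)
    (fun i hi => hb i (hJT hi)) hdeg hmax j
  rw [hJc] at h1
  have h2 : Real.log (f (q.eval (z j0))) ≤ Real.log (f (q.eval (z a))) := by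
    have h3 := hmin (insert a (J.erase j0)) (by
      rw [Finset.mem_powersetCard]
      refine ⟨?_, ?_⟩
      · intro x hx
        rcases Finset.mem_insert.1 hx with rfl | hx
        · exact ha
        · exact hJT (Finset.mem_of_mem_erase hx)
      · rw [Finset.card_insert_of_notMem (fun h => haJ (Finset.mem_of_mem_erase h)),
          Finset.card_erase_of_mem hj0, hJc]
        rfl)
    rw [Finset.sum_insert (fun h => haJ (Finset.mem_of_mem_erase h)),
      ← Finset.add_sum_erase J _ hj0] at h3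
    linarith
  have h3 : 0 < f (q.coeff j) := f.pos hj
  have h4 := Real.log_le_log h3 h1
  have h5 : 0 < f (q.eval (z j0)) := f.pos (hne j0 (hJT hj0))
  rw [Real.log_mul (by positivity) h5.ne'] at h4
  push_cast at h4
  linarith

theorem eval_le (f : AbsoluteValue K ℝ) {q : K[X]} {d : ℕ} (hq : q.natDegree ≤ d) {A B : ℝ}
    (hA : 1 ≤ A) (hB : ∀ i, f (q.coeff i) ≤ B) {x : K} (hx : f x ≤ A) :
    f (q.eval x) ≤ (d + 1) * A ^ d * B := by
  have hB0 : 0 ≤ B := (f.nonneg _).trans (hB 0)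
  rw [eval_eq_sum_range' (Nat.lt_succ_of_le hq)]
  refine (f.sum_le _ _).trans ?_
  have h1 : ∀ i ∈ Finset.range (d + 1), f (q.coeff i * x ^ i) ≤ A ^ d * B := by
    intro i hi
    rw [map_mul, map_pow, mul_comm]
    refine mul_le_mul ?_ (hB i) (f.nonneg _) (by positivity)
    refine (pow_le_pow_left₀ (f.nonneg _) hx i).trans ?_
    exact pow_le_pow_right₀ hA (by rw [Finset.mem_range] at hi; omega)
  refine (Finset.sum_le_sum h1).trans ?_
  rw [Finset.sum_const, Finset.card_range, nsmul_eq_mul]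
  push_cast
  apply le_of_eq
  ring

/-- the local inequality -/
theorem near_ineq [DecidableEq K] (f : AbsoluteValue K ℝ) {g : K[X]} {N : ℕ} (d : ℕ) (hN : 1 ≤ N)
    (hg : g.natDegree = N) (hs : g.Splits) (hsep : g.Separable)
    {M : ℝ} (hM : 0 ≤ M) (γ : Fin (d + 1) → K) (hγ : Function.Injective γ)
    (hγg : ∀ i, g.eval (γ i) ≠ 0) (L : ℕ) :
    ∃ ρ₀ c A : ℝ, 0 < ρ₀ ∧ ρ₀ ≤ 1 ∧ 0 < c ∧ ∀ (p : K[X]) (ρ : ℝ), 0 ≤ ρ → ρ ≤ ρ₀ →
      p.natDegree ≤ N → (∀ j, f (p.coeff j - g.coeff j) ≤ M * ρ) →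
      (∀ a ∈ g.roots.toFinset.disjSum Finset.univ, ∀ b ∈ g.roots.toFinset.disjSum Finset.univ,
        a ≠ b → c ≤ f (node p g L γ a - node p g L γ b)) ∧
      ∀ (q : K[X]) (j : ℕ), q.natDegree ≤ d → q.coeff j ≠ 0 →
        (∀ i, f (q.coeff i) ≤ f (q.coeff j)) →
        (∀ a ∈ g.roots.toFinset.disjSum Finset.univ, q.eval (node p g L γ a) ≠ 0) →
        ρ ^ (L + 1) * f (q.coeff j) ^ N ≤ f (resultant p q N d) →
        ∃ J ⊆ g.roots.toFinset.disjSum Finset.univ, J.card = d + 1 ∧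
          N * Real.log (f (q.coeff j)) - Real.log (f (resultant p q N d)) ≤
            A + ∑ a ∈ J, (Real.log (f (q.coeff j)) -
              Real.log (f (q.eval (node p g L γ a)))) := by
  classical
  obtain ⟨ρ₀, c, A, hρ₀, hρ₁, hc, hA, h⟩ := near_res f d hN hg hs hsep hM γ hγ hγg L
  have hcard : g.roots.toFinset.card = N := by
    rw [Multiset.toFinset_card_of_nodup (nodup_roots hsep), ← hg]
    exact hs.natDegree_eq_card_roots.symm
  set s := g.roots.toFinset with hsdef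
  set T : Finset (K ⊕ Fin (d + 1)) := s.disjSum Finset.univ with hT
  obtain ⟨C1, hC1⟩ : ∃ C1 : ℝ, C1 = Real.log ((d + 1) * A ^ d) := ⟨_, rfl⟩
  have hC10 : 0 ≤ C1 := by
    rw [hC1]
    refine Real.log_nonneg ?_
    have h1 : (1 : ℝ) ≤ A ^ d := one_le_pow₀ hA
    have h2 : (0 : ℝ) ≤ d := Nat.cast_nonneg d
    nlinarith
  obtain ⟨C2, hC2⟩ : ∃ C2 : ℝ, C2 = Real.log ((d + 1) * max 1 ((1 + A) / c) ^ (d + 1)) := ⟨_, rfl⟩
  have hC20 : 0 ≤ C2 := by
    rw [hC2]
    refine Real.log_nonneg ?_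
    have h1 : (1 : ℝ) ≤ max 1 ((1 + A) / c) ^ (d + 1) := one_le_pow₀ (le_max_left _ _)
    have h2 : (0 : ℝ) ≤ d := Nat.cast_nonneg d
    nlinarith
  refine ⟨ρ₀, c, Real.log (2 * A) + ((d + 1 : ℕ) * C1 + T.card * (C1 + C2)), hρ₀, hρ₁, hc, ?_⟩
  intro p ρ hρ0 hρ hp hpg
  obtain ⟨h1, h2, h3⟩ := h p ρ hρ0 hρ hp hpg
  refine ⟨h1, ?_⟩
  intro q j hq hj hmax hne hL
  have hTd : d + 1 ≤ T.card := by
    rw [hT, Finset.card_disjSum, Finset.card_univ, Fintype.card_fin]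
    omega
  obtain ⟨J, hJT, hJc, hJ⟩ := select f T (node p g L γ) hc (by linarith) h1 h2 hTd hq hne
  refine ⟨J, hJT, hJc, ?_⟩
  set B := f (q.coeff j) with hB
  have hB0 : 0 < B := f.pos hj
  have h4 := h3 q B hq hB0.le hmax
  set R := f (resultant p q N d) with hR
  have hR0 : 0 < R := by
    by_contra hcon
    have h5 : R = 0 := le_antisymm (not_lt.1 hcon) (f.nonneg _)
    rw [h5] at h4 hL
    have h6 : 0 ≤ ρ ^ (L + 1) * B ^ N := by positivity
    have h7 : ρ ^ (L + 1) * B ^ N = 0 := le_antisymm hL h6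
    rw [h7, add_zero, mul_zero] at h4
    have h8 : 0 < ∏ β ∈ s, f (q.eval (node p g L γ (Sum.inl β))) :=
      Finset.prod_pos fun β hβ => f.pos (hne _ (Finset.inl_mem_disjSum.2 hβ))
    linarith
  have h5 : ∏ β ∈ s, f (q.eval (node p g L γ (Sum.inl β))) ≤ 2 * A * R := by
    refine h4.trans ?_
    have : A * (R + ρ ^ (L + 1) * B ^ N) ≤ A * (R + R) :=
      mul_le_mul_of_nonneg_left (by linarith) (by linarith)
    linarith
  have h6 : ∑ β ∈ s, Real.log (f (q.eval (node p g L γ (Sum.inl β)))) ≤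
      Real.log (2 * A) + Real.log R := by
    rw [← Real.log_prod (fun β hβ => (f.pos (hne _ (Finset.inl_mem_disjSum.2 hβ))).ne'),
      ← Real.log_mul (by positivity) hR0.ne']
    exact Real.log_le_log (Finset.prod_pos fun β hβ =>
      f.pos (hne _ (Finset.inl_mem_disjSum.2 hβ))) h5
  obtain ⟨t, ht⟩ : ∃ t : K ⊕ Fin (d + 1) → ℝ,
    t = fun a => Real.log B - Real.log (f (q.eval (node p g L γ a))) := ⟨_, rfl⟩
  have ht1 : ∀ a ∈ T, 0 ≤ t a + C1 := by
    intro a ha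
    have h7 := eval_le f hq hA hmax (h2 a ha)
    have h8 := Real.log_le_log (f.pos (hne a ha)) h7
    rw [Real.log_mul (by positivity) hB0.ne', ← hC1] at h8
    rw [ht]
    simp only
    linarith
  have ht2 : ∀ a ∈ T, a ∉ J → t a ≤ C2 := by
    intro a ha haJ
    have h7 := hJ j hj a ha haJ
    rw [ht]
    simp only
    rw [hC2]
    linarith
  have h7 : ∑ β ∈ s, t (Sum.inl β) ≤ ∑ a ∈ T, (t a + C1) := by
    rw [hT, Finset.sum_disjSum]
    have h8 : ∑ β ∈ s, t (Sum.inl β) ≤ ∑ β ∈ s, (t (Sum.inl β) + C1) :=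
      Finset.sum_le_sum fun _ _ => by linarith
    have h9 : 0 ≤ ∑ i, (t (Sum.inr i) + C1) := Finset.sum_nonneg fun i _ =>
      ht1 _ (Finset.inr_mem_disjSum.2 (Finset.mem_univ _))
    linarith
  have h8 : ∑ a ∈ T, (t a + C1) ≤ ∑ a ∈ J, (t a + C1) + T.card * (C1 + C2) := by
    rw [← Finset.sum_sdiff hJT, add_comm]
    refine add_le_add le_rfl ?_
    have h9 : ∑ a ∈ T \ J, (t a + C1) ≤ ∑ a ∈ T \ J, (C1 + C2) := by
      refine Finset.sum_le_sum fun a ha => ?_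
      rw [Finset.mem_sdiff] at ha
      have := ht2 a ha.1 ha.2
      linarith
    refine h9.trans ?_
    rw [Finset.sum_const, nsmul_eq_mul]
    refine mul_le_mul_of_nonneg_right ?_ (by linarith)
    exact_mod_cast Finset.card_le_card Finset.sdiff_subset
  have h10 : ∑ a ∈ J, (t a + C1) = ∑ a ∈ J, t a + (d + 1 : ℕ) * C1 := by
    rw [Finset.sum_add_distrib, Finset.sum_const, nsmul_eq_mul, hJc]
  rw [h10] at h8
  have h9 : ∑ β ∈ s, t (Sum.inl β) = N * Real.log B -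
      ∑ β ∈ s, Real.log (f (q.eval (node p g L γ (Sum.inl β)))) := by
    rw [ht]
    simp only
    rw [Finset.sum_sub_distrib, Finset.sum_const, hcard, nsmul_eq_mul]
  have h11 : ∑ a ∈ J, (Real.log B - Real.log (f (q.eval (node p g L γ a)))) = ∑ a ∈ J, t a := by
    rw [ht]
  rw [h11]
  linarith

end Pool.Agent.Run7.h489.NF
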