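import Mathlib
import Pool.Agent.N63.MT.Core
import Pool.Agent.Run7.h489.TM.Lau
import Pool.Agent.Run7.h489.NF.Near

set_option autoImplicit false
set_option linter.unusedSectionVars false

/-!
The linear forms and their determinants.
-/

namespace Pool.Agent.Run7.h489.NF

open Polynomial
open Pool.Agent.Run7.h489.TM
open Pool.Agent.N63.MT (mn mn_ne lv)

/-- the polynomial with the coefficients `x` -/
noncomputable def bin {R : Type} [CommRing R] {n : ℕ} (x : Fin n → R) : R[X] :=
  ∑ i, C (x i) * X ^ i.1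

theorem bin_coeff {R : Type} [CommRing R] {n : ℕ} (x : Fin n → R) (i : Fin n) :
    (bin x).coeff i.1 = x i := by
  unfold bin
  rw [finsetSum_coeff, Finset.sum_eq_single i]
  · rw [coeff_C_mul, coeff_X_pow, if_pos rfl, mul_one]
  · intro j _ hj
    rw [coeff_C_mul, coeff_X_pow, if_neg (fun h => hj (Fin.ext h.symm)), mul_zero]
  · intro h
    exact absurd (Finset.mem_univ _) h

theorem bin_coeff_ge {R : Type} [CommRing R] {n : ℕ} (x : Fin n → R) {i : ℕ} (hi : n ≤ i) :
    (bin x).coeff i = 0 := by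
  unfold bin
  rw [finsetSum_coeff]
  refine Finset.sum_eq_zero fun j _ => ?_
  rw [coeff_C_mul, coeff_X_pow, if_neg (fun h => by have := j.2; omega), mul_zero]

theorem bin_natDegree {R : Type} [CommRing R] {d : ℕ} (x : Fin (d + 1) → R) :
    (bin x).natDegree ≤ d := by
  rw [natDegree_le_iff_coeff_eq_zero]
  intro i hi
  exact bin_coeff_ge x (by omega)

theorem bin_eval {R : Type} [CommRing R] {n : ℕ} (x : Fin n → R) (y : R) :
    (bin x).eval y = ∑ i, x i * y ^ i.1 := by
  unfold bin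
  rw [eval_finsetSum]
  refine Finset.sum_congr rfl fun i _ => ?_
  rw [eval_mul, eval_C, eval_pow, eval_X]

theorem bin_map {R R' : Type} [CommRing R] [CommRing R'] (φ : R →+* R') {n : ℕ} (x : Fin n → R) :
    (bin x).map φ = bin fun i => φ (x i) := by
  unfold bin
  rw [Polynomial.map_sum]
  refine Finset.sum_congr rfl fun i _ => ?_
  rw [Polynomial.map_mul, map_C, Polynomial.map_pow, map_X]

section

variable {K : Type} [Field K] {m d : ℕ}

/-- the form `x ↦ u^(dE) Q_x(q / u^E)` -/
noncomputable def frm (E : Fin m →₀ ℕ) (q : MvPolynomial (Fin m) K) :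
    Fin (d + 1) → MvPolynomial (Fin m) K :=
  fun i => q ^ i.1 * MvPolynomial.monomial E 1 ^ i.rev.1

theorem eval_mon (E : Fin m →₀ ℕ) (u : Fin m → K) :
    MvPolynomial.eval u (MvPolynomial.monomial E (1 : K)) = mn u E := by
  rw [MvPolynomial.eval_monomial, Finsupp.prod_fintype _ _ (fun _ => pow_zero _), one_mul]
  rfl

theorem lv_frm (E : Fin m →₀ ℕ) (q : MvPolynomial (Fin m) K) (u : Fin m → K) {b : K}
    (hq : MvPolynomial.eval u q = mn u E * b) (x : Fin (d + 1) → K) :
    lv (frm E q) u x = mn u E ^ d * (bin x).eval b := by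
  unfold lv frm
  rw [bin_eval, Finset.mul_sum]
  refine Finset.sum_congr rfl fun i _ => ?_
  rw [map_mul, map_pow, map_pow, eval_mon, hq]
  have h1 : mn u E ^ d = mn u E ^ i.1 * mn u E ^ i.rev.1 := by
    rw [← pow_add]
    congr 1
    rw [Fin.val_rev]
    have := i.2
    omega
  rw [h1]
  ring

theorem pairs (d : ℕ) : 2 * ∑ i : Fin (d + 1), (Finset.Ioi i).card = d * (d + 1) := by
  simp only [Fin.card_Ioi]
  have h1 : ∑ i : Fin (d + 1), (d + 1 - 1 - i.1) = ∑ i ∈ Finset.range (d + 1), (d + 1 - 1 - i) :=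
    Fin.sum_univ_eq_sum_range (fun i => d + 1 - 1 - i) (d + 1)
  rw [h1, Finset.sum_range_reflect (fun i => i) (d + 1), mul_comm, Finset.sum_range_id_mul_two]
  rw [Nat.add_sub_cancel, mul_comm]

theorem max_mon (f : AbsoluteValue K ℝ) {P : MvPolynomial (Fin m) K} {u : Fin m → K}
    (hu : ∀ i, u i ≠ 0) (h : MvPolynomial.eval u P ≠ 0) :
    ∃ I ∈ P.support, Real.log (f (MvPolynomial.eval u P)) ≤
      Real.log (∑ I ∈ P.support, f (P.coeff I)) + Real.log (f (mn u I)) := by
  have hP : P.support.Nonempty := by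
    rw [Finset.nonempty_iff_ne_empty]
    intro h0
    rw [MvPolynomial.support_eq_empty] at h0
    rw [h0, map_zero] at h
    exact h rfl
  obtain ⟨I, hI, hmax⟩ := Finset.exists_max_image P.support (fun I => f (mn u I)) hP
  refine ⟨I, hI, ?_⟩
  have h1 : f (MvPolynomial.eval u P) ≤ (∑ I ∈ P.support, f (P.coeff I)) * f (mn u I) := by
    rw [MvPolynomial.eval_eq', Finset.sum_mul]
    refine (f.sum_le _ _).trans (Finset.sum_le_sum fun J hJ => ?_)
    rw [map_mul]
    exact mul_le_mul_of_nonneg_left (hmax J hJ) (f.nonneg _)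
  have h2 : 0 < f (mn u I) := f.pos (mn_ne hu I)
  have h3 : 0 < f (MvPolynomial.eval u P) := f.pos h
  have h4 : 0 < ∑ I ∈ P.support, f (P.coeff I) := by
    by_contra hcon
    have h5 : ∑ I ∈ P.support, f (P.coeff I) = 0 :=
      le_antisymm (not_lt.1 hcon) (Finset.sum_nonneg fun _ _ => f.nonneg _)
    rw [h5, zero_mul] at h1
    linarith
  rw [← Real.log_mul h4.ne' h2.ne']
  exact Real.log_le_log h3 h1

theorem det_frm (E : Fin m →₀ ℕ) (q : Fin (d + 1) → MvPolynomial (Fin m) K) (u : Fin m → K)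
    {b : Fin (d + 1) → K} (hq : ∀ i, MvPolynomial.eval u (q i) = mn u E * b i) :
    MvPolynomial.eval u (Matrix.of fun j => frm E (q j)).det =
      ∏ i : Fin (d + 1), ∏ j ∈ Finset.Ioi i, (mn u E ^ 2 * (b j - b i)) := by
  have h1 : (Matrix.of fun j => frm E (q j)) =
      Matrix.projVandermonde q (fun _ => MvPolynomial.monomial E (1 : K)) := by
    ext1 i j
    rw [Matrix.projVandermonde_apply]
    rfl
  rw [h1, Matrix.det_projVandermonde, map_prod]
  refine Finset.prod_congr rfl fun i _ => ?_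
  rw [map_prod]
  refine Finset.prod_congr rfl fun j _ => ?_
  rw [map_sub, map_mul, map_mul, eval_mon, hq, hq]
  ring

theorem log_det_ge (f : AbsoluteValue K ℝ) (E : Fin m →₀ ℕ)
    (q : Fin (d + 1) → MvPolynomial (Fin m) K) {u : Fin m → K} (hu : ∀ i, u i ≠ 0)
    {b : Fin (d + 1) → K} (hq : ∀ i, MvPolynomial.eval u (q i) = mn u E * b i) {c : ℝ} (hc : 0 < c)
    (hb : ∀ i j, i ≠ j → c ≤ f (b i - b j)) :
    MvPolynomial.eval u (Matrix.of fun j => frm E (q j)).det ≠ 0 ∧
    (d * (d + 1) : ℕ) * Real.log (f (mn u E)) +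
      (∑ i : Fin (d + 1), (Finset.Ioi i).card : ℕ) * Real.log c ≤
      Real.log (f (MvPolynomial.eval u (Matrix.of fun j => frm E (q j)).det)) := by
  have hE : 0 < f (mn u E) := f.pos (mn_ne hu E)
  have hpos : ∀ i : Fin (d + 1), ∀ j ∈ Finset.Ioi i, 0 < f (mn u E ^ 2 * (b j - b i)) := by
    intro i j hj
    rw [map_mul, map_pow]
    have h1 := hb j i (ne_of_gt (Finset.mem_Ioi.1 hj))
    have : 0 < f (b j - b i) := lt_of_lt_of_le hc h1
    positivity
  have hne : MvPolynomial.eval u (Matrix.of fun j => frm E (q j)).det ≠ 0 := by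
    rw [det_frm E q u hq, Finset.prod_ne_zero_iff]
    intro i _
    rw [Finset.prod_ne_zero_iff]
    intro j hj h0
    have := hpos i j hj
    rw [h0, map_zero] at this
    exact lt_irrefl _ this
  refine ⟨hne, ?_⟩
  rw [det_frm E q u hq, map_prod, Real.log_prod (fun i _ => by
    rw [map_prod]
    exact (Finset.prod_pos fun j hj => hpos i j hj).ne')]
  have h1 : ∀ i : Fin (d + 1), ((Finset.Ioi i).card : ℝ) * (2 * Real.log (f (mn u E)) + Real.log c) ≤
      Real.log (f (∏ j ∈ Finset.Ioi i, (mn u E ^ 2 * (b j - b i)))) := by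
    intro i
    rw [map_prod, Real.log_prod fun j hj => (hpos i j hj).ne', ← nsmul_eq_mul, ← Finset.sum_const]
    refine Finset.sum_le_sum fun j hj => ?_
    have h2 := hb j i (ne_of_gt (Finset.mem_Ioi.1 hj))
    have h3 : 0 < f (b j - b i) := lt_of_lt_of_le hc h2
    rw [map_mul, map_pow, Real.log_mul (by positivity) h3.ne', Real.log_pow]
    have h4 := Real.log_le_log hc h2
    push_cast
    linarith
  refine le_trans (le_of_eq ?_) (Finset.sum_le_sum fun i _ => h1 i)
  rw [← Finset.sum_mul, ← pairs d]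
  push_cast
  ring

/-- the comparison of the forms and the values -/
theorem cmp_frm (f : AbsoluteValue K ℝ) (E : Fin m →₀ ℕ)
    (q : Fin (d + 1) → MvPolynomial (Fin m) K) {c : ℝ} (hc : 0 < c) : ∃ A : ℝ,
    ∀ (u : Fin m → K) (b : Fin (d + 1) → K) (x : Fin (d + 1) → K) (β : ℝ), (∀ i, u i ≠ 0) →
      (∀ i, MvPolynomial.eval u (q i) = mn u E * b i) → (∀ i j, i ≠ j → c ≤ f (b i - b j)) →
      (∀ i, (bin x).eval (b i) ≠ 0) →
      ∃ I ∈ (Matrix.of fun j => frm (d := d) E (q j)).det.support,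
        ∑ j, (β - Real.log (f ((bin x).eval (b j)))) ≤
          A + (∑ j, (β - Real.log (f (lv (frm (d := d) E (q j)) u x))) +
            Real.log (f (mn u I))) := by
  refine ⟨Real.log (∑ I ∈ (Matrix.of fun j => frm (d := d) E (q j)).det.support,
    f ((Matrix.of fun j => frm (d := d) E (q j)).det.coeff I)) -
    (∑ i : Fin (d + 1), (Finset.Ioi i).card : ℕ) * Real.log c, ?_⟩
  intro u b x β hu hq hb hne
  obtain ⟨h1, h2⟩ := log_det_ge f E q hu hq hc hb
  obtain ⟨I, hI, h3⟩ := max_mon f hu h1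
  refine ⟨I, hI, ?_⟩
  have h4 : ∑ j, (β - Real.log (f (lv (frm (d := d) E (q j)) u x))) =
      ∑ j, (β - Real.log (f ((bin x).eval (b j)))) -
        (d * (d + 1) : ℕ) * Real.log (f (mn u E)) := by
    have h5 : ∀ j, β - Real.log (f (lv (frm (d := d) E (q j)) u x)) =
        (β - Real.log (f ((bin x).eval (b j)))) - d * Real.log (f (mn u E)) := by
      intro j
      have hE : 0 < f (mn u E) := f.pos (mn_ne hu E)
      rw [lv_frm E (q j) u (hq j) x, map_mul, map_pow,
        Real.log_mul (by positivity) (f.ne_zero (hne j)), Real.log_pow]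
      ring
    rw [Finset.sum_congr rfl fun j _ => h5 j, Finset.sum_sub_distrib, Finset.sum_const,
      Finset.card_univ, Fintype.card_fin, nsmul_eq_mul]
    push_cast
    ring
  rw [h4]
  linarith

end

end Pool.Agent.Run7.h489.NF
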