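import Mathlib
import Pool.Agent.Run7.h489.VJ.Out
import Pool.Agent.Run7.h489.NF.Det

set_option autoImplicit false
set_option linter.unusedSectionVars false

/-!
Heights of resultants, and the local inequality for the values of the forms.
-/

namespace Pool.Agent.Run7.h489.NF

open Polynomial Height NumberField IsDedekindDomain
open Pool.Agent.Run7.h489.TM
open Pool.Agent.W180.OP (Pl av wt fv nrm wt_nonneg le_nrm exists_nrm nrm_pos)
open Pool.Agent.N63.MT (mn mn_ne lv)

/-- the resultant of `F_u` and `Q_x` -/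
noncomputable def res {R : Type} [Field R] {m : ℕ} (F : ((Fin m → ℤ) × ℕ) →₀ R) (N d : ℕ)
    (u : Fin m → R) (x : Fin (d + 1) → R) : R :=
  resultant (pol F 0 0 u) (bin x) N d

section

variable {k : Type} [Field k] [NumberField k] {m : ℕ}

theorem height_det_le {n : ℕ} (A : Matrix (Fin n) (Fin n) k) {T : ℝ}
    (hA : ∀ i j, logHeight₁ (A i j) ≤ T) :
    logHeight₁ A.det ≤ |totalWeight k * Real.log n.factorial| + n.factorial * (n * T) := by
  rw [Matrix.det_apply']
  refine (logHeight₁_sum_le _ _).trans ?_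
  rw [Finset.card_univ, Fintype.card_perm, Fintype.card_fin]
  refine add_le_add (le_abs_self _) ?_
  have h1 : ∀ σ ∈ (Finset.univ : Finset (Equiv.Perm (Fin n))),
      logHeight₁ (((Equiv.Perm.sign σ : ℤ) : k) * ∏ i, A (σ i) i) ≤ n * T := by
    intro σ _
    have h2 : logHeight₁ (((Equiv.Perm.sign σ : ℤ) : k) * ∏ i, A (σ i) i) =
        logHeight₁ (∏ i, A (σ i) i) := by
      rcases Int.units_eq_one_or (Equiv.Perm.sign σ) with h | h
      · rw [h, Units.val_one, Int.cast_one, one_mul]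
      · rw [h, Units.val_neg, Units.val_one, Int.cast_neg, Int.cast_one, neg_one_mul,
          logHeight₁_neg]
    rw [h2]
    refine (logHeight₁_prod_le _ _).trans ?_
    refine (Finset.sum_le_sum fun i _ => hA _ _).trans ?_
    rw [Finset.sum_const, Finset.card_univ, Fintype.card_fin, nsmul_eq_mul]
  refine (Finset.sum_le_sum h1).trans ?_
  rw [Finset.sum_const, Finset.card_univ, Fintype.card_perm, Fintype.card_fin, nsmul_eq_mul]

theorem height_coeff_pol (F : ((Fin m → ℤ) × ℕ) →₀ k) : ∃ C : ℝ, 0 ≤ C ∧ ∀ (u : Fin m → k) (j : ℕ),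
    logHeight₁ ((pol F 0 0 u).coeff j) ≤ C * (hs u + 1) := by
  set A : ℝ := |totalWeight k * Real.log F.support.card| with hA
  set t : ((Fin m → ℤ) × ℕ) → ℝ := fun e => logHeight₁ (F e) + (∑ i, |(e.1 i : ℝ)|) with ht
  have ht0 : ∀ e, 0 ≤ t e := fun e => by
    have := zero_le_logHeight₁ (F e)
    simp only [ht]
    positivity
  refine ⟨A + ∑ e ∈ F.support, t e, add_nonneg (abs_nonneg _)
    (Finset.sum_nonneg fun e _ => ht0 e), ?_⟩
  intro u j
  unfold pol
  rw [finsetSum_coeff]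
  refine (logHeight₁_sum_le _ _).trans ?_
  have h0 := hs_nonneg u
  have h1 : ∀ e ∈ F.support, logHeight₁ ((monomial e.2 (F e * mono u (e.1 + e.2 • 0 - 0))).coeff j) ≤
      t e * (hs u + 1) := by
    intro e _
    rw [coeff_monomial]
    split_ifs
    · have h2 := logHeight₁_mul_le (F e) (mono u (e.1 + e.2 • 0 - 0))
      have h4 := height_mono_le u e.1
      have e1 : e.1 + e.2 • (0 : Fin m → ℤ) - 0 = e.1 := by
        rw [smul_zero, add_zero, sub_zero]
      rw [e1] at h2 ⊢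
      have h5 := zero_le_logHeight₁ (F e)
      have h6 : 0 ≤ ∑ i, |(e.1 i : ℝ)| := Finset.sum_nonneg fun _ _ => abs_nonneg _
      simp only [ht]
      nlinarith [mul_nonneg h5 h0]
    · rw [logHeight₁_zero]
      exact mul_nonneg (ht0 e) (by linarith)
  have h2 := Finset.sum_le_sum h1
  rw [← Finset.sum_mul] at h2
  have h3 : totalWeight k * Real.log F.support.card ≤ A * (hs u + 1) := by
    have h4 := le_abs_self (totalWeight k * Real.log F.support.card)
    have h5 : A * 1 ≤ A * (hs u + 1) := mul_le_mul_of_nonneg_left (by linarith) (abs_nonneg _)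
    linarith
  rw [add_mul]
  linarith

theorem height_res_le (F : ((Fin m → ℤ) × ℕ) →₀ k) (N d : ℕ) : ∃ C : ℝ, 0 ≤ C ∧
    ∀ (u : Fin m → k) (x : Fin (d + 1) → k) (h : ℝ), (∀ i, logHeight₁ (x i) ≤ h) →
      logHeight₁ (res F N d u x) ≤ C * (hs u + h + 1) := by
  obtain ⟨C, hC, hCc⟩ := height_coeff_pol F
  refine ⟨|totalWeight k * Real.log (N + d).factorial| +
    (N + d).factorial * ((N + d : ℕ) * (C + 1)), by positivity, ?_⟩
  intro u x h hx
  have h0 := hs_nonneg u
  have h00 : 0 ≤ h := (zero_le_logHeight₁ _).trans (hx 0)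
  have h1 : ∀ i j, logHeight₁ (sylvester (pol F 0 0 u) (bin x) N d i j) ≤
      (C + 1) * (hs u + h + 1) := by
    intro i j
    have h2 : 0 ≤ C * h := mul_nonneg hC h00
    have h3 : 0 ≤ (C + 1) * (hs u + h + 1) := by positivity
    induction j using Fin.addCases with
    | left j =>
      simp only [sylvester, Matrix.of_apply, Fin.addCases_left]
      split_ifs
      · rcases Nat.lt_or_ge (i.1 - j.1) (d + 1) with h5 | h5
        · have h6 := bin_coeff x ⟨i.1 - j.1, h5⟩
          simp only at h6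
          rw [h6]
          have h7 := hx ⟨i.1 - j.1, h5⟩
          nlinarith
        · rw [bin_coeff_ge x h5, logHeight₁_zero]
          exact h3
      · rw [logHeight₁_zero]
        exact h3
    | right j =>
      simp only [sylvester, Matrix.of_apply, Fin.addCases_right]
      split_ifs
      · have h4 := hCc u (i.1 - j.1)
        nlinarith
      · rw [logHeight₁_zero]
        exact h3
  unfold res resultant
  refine (height_det_le _ h1).trans ?_
  have h2 : |totalWeight k * Real.log (N + d).factorial| * 1 ≤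
      |totalWeight k * Real.log (N + d).factorial| * (hs u + h + 1) :=
    mul_le_mul_of_nonneg_left (by linarith) (abs_nonneg _)
  have h3 : ((N + d).factorial : ℝ) * ((N + d : ℕ) * ((C + 1) * (hs u + h + 1))) =
      (N + d).factorial * ((N + d : ℕ) * (C + 1)) * (hs u + h + 1) := by ring
  rw [h3, add_mul |totalWeight k * Real.log (N + d).factorial|]
  linarith

theorem height_coord_le {n : ℕ} {x : Fin n → k} {i0 : Fin n} (h0 : x i0 = 1) (i : Fin n) :
    logHeight₁ (x i) ≤ logHeight x := by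
  rw [logHeight₁_eq_logHeight]
  refine VJ.height_le h0 (j := 1) rfl fun f => ?_
  rw [nrm_pair]
  refine max_le (le_nrm f x i) ?_
  have := le_nrm f x i0
  rwa [h0, map_one] at this

end

section

variable {K : Type} [Field K] {m : ℕ}

theorem pol_mu (F : ((Fin m → ℤ) × ℕ) →₀ K) (μ : Fin m → ℤ) {u : Fin m → K} (hu : ∀ i, u i ≠ 0) :
    pol F 0 μ u = C (mono u (-μ)) * pol F 0 0 u := by
  unfold pol
  rw [Finset.mul_sum]
  refine Finset.sum_congr rfl fun e _ => ?_
  rw [C_mul_monomial]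
  congr 1
  have h1 : e.1 + e.2 • (0 : Fin m → ℤ) - μ = -μ + (e.1 + e.2 • (0 : Fin m → ℤ) - 0) := by
    rw [sub_zero]
    ring
  rw [h1, mono_add hu]
  ring

theorem mono_neg' {u : Fin m → K} (hu : ∀ i, u i ≠ 0) (μ : Fin m → ℤ) :
    mono u (-μ) = (mono u μ)⁻¹ := by
  refine eq_inv_of_mul_eq_one_left ?_
  rw [← mono_add hu, neg_add_cancel, mono_zero]

/-- the local inequality -/
theorem loc_near [DecidableEq K] (f : AbsoluteValue K ℝ) {F : ((Fin m → ℤ) × ℕ) →₀ K}
    {μ : Fin m → ℤ} {N : ℕ} (d : ℕ) (hN : 1 ≤ N) (hF : ∀ e ∈ F.support, e.2 ≤ N)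
    (hg : (gpol F 0 μ).natDegree = N) (hs : (gpol F 0 μ).Splits) (hsep : (gpol F 0 μ).Separable)
    (γ : Fin (d + 1) → K) (hγ : Function.Injective γ) (hγg : ∀ i, (gpol F 0 μ).eval (γ i) ≠ 0)
    (L : ℕ) :
    ∃ ρ₀ c A : ℝ, 0 < ρ₀ ∧ ρ₀ ≤ 1 ∧ 0 < c ∧ ∀ (u : Fin m → K) (ρ : ℝ), (∀ i, u i ≠ 0) →
      0 ≤ ρ → ρ ≤ ρ₀ → (∀ e ∈ F.support, e.1 ≠ μ → f (mono u (e.1 - μ)) ≤ ρ) →
      (∀ a ∈ (gpol F 0 μ).roots.toFinset.disjSum Finset.univ,
        ∀ b ∈ (gpol F 0 μ).roots.toFinset.disjSum Finset.univ, a ≠ b →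
        c ≤ f (node (pol F 0 μ u) (gpol F 0 μ) L γ a - node (pol F 0 μ u) (gpol F 0 μ) L γ b)) ∧
      ∀ (x : Fin (d + 1) → K) (j : Fin (d + 1)), x j ≠ 0 → (∀ i, f (x i) ≤ f (x j)) →
        (∀ a ∈ (gpol F 0 μ).roots.toFinset.disjSum Finset.univ,
          (bin x).eval (node (pol F 0 μ u) (gpol F 0 μ) L γ a) ≠ 0) →
        res F N d u x ≠ 0 →
        ρ ^ (L + 1) * f (x j) ^ N ≤ f (mono u (-μ)) ^ d * f (res F N d u x) →
        ∃ J ⊆ (gpol F 0 μ).roots.toFinset.disjSum Finset.univ, J.card = d + 1 ∧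
          d * Real.log (f (mono u μ)) + N * Real.log (f (x j)) - Real.log (f (res F N d u x)) ≤
            A + ∑ a ∈ J, (Real.log (f (x j)) -
              Real.log (f ((bin x).eval (node (pol F 0 μ u) (gpol F 0 μ) L γ a)))) := by
  obtain ⟨ρ₀, c, A, h0, h1, hc, h⟩ := near_ineq f d hN hg hs hsep
    (M := ∑ e ∈ F.support, f (F e)) (Finset.sum_nonneg fun e _ => f.nonneg _) γ hγ hγg L
  refine ⟨ρ₀, c, A, h0, h1, hc, ?_⟩
  intro u ρ hu hρ0 hρ hface
  obtain ⟨h2, h3⟩ := h (pol F 0 μ u) ρ hρ0 hρ (natDegree_pol hF 0 μ u)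
    (coeff_pol_sub f F 0 μ u hρ0 (by
      intro e he hne
      rw [smul_zero, add_zero] at hne ⊢
      exact hface e he hne))
  refine ⟨h2, ?_⟩
  intro x j hj hmax hne hres hL
  have hmx : ∀ i, f ((bin x).coeff i) ≤ f ((bin x).coeff j.1) := by
    intro i
    rw [bin_coeff]
    rcases Nat.lt_or_ge i (d + 1) with h5 | h5
    · have h6 := bin_coeff x ⟨i, h5⟩
      simp only at h6
      rw [h6]
      exact hmax _
    · rw [bin_coeff_ge x h5, map_zero]
      exact f.nonneg _
  have hR : resultant (pol F 0 μ u) (bin x) N d = mono u (-μ) ^ d * res F N d u x := by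
    rw [pol_mu F μ hu, resultant_C_mul_left]
    rfl
  have hμ : 0 < f (mono u μ) := f.pos (mono_ne hu _)
  have hR0 : 0 < f (res F N d u x) := f.pos hres
  have h4 := h3 (bin x) j.1 (bin_natDegree x) (by rw [bin_coeff]; exact hj) hmx hne (by
    rw [bin_coeff, hR, map_mul, map_pow]
    exact hL)
  obtain ⟨J, hJ, hJc, hJs⟩ := h4
  refine ⟨J, hJ, hJc, ?_⟩
  rw [bin_coeff, hR, map_mul, map_pow, mono_neg' hu, map_inv₀,
    Real.log_mul (by positivity) hR0.ne', Real.log_pow, Real.log_inv] at hJs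
  linarith

end

end Pool.Agent.Run7.h489.NF
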