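import Mathlib
import Pool.Agent.N63.MT.Main
import Pool.Agent.Run7.h489.TM.Gen
import Pool.Agent.Run7.h489.VJ.Main
import Pool.Agent.Run7.h489.NF.Ht

set_option autoImplicit false
set_option linter.unusedSectionVars false

/-!
The inequality for the resultants.
-/

namespace Pool.Agent.Run7.h489.NF

open Height NumberField IsDedekindDomain
open Pool.Agent.W180.OP (Pl av wt fv nrm wt_nonneg le_nrm exists_nrm nrm_pos)
open Pool.Agent.R404.TC (Sp)
open Pool.Agent.R405 (Good exists_good)
open Pool.Agent.Run7.h489.TM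
open Pool.Agent.Run7.h489.VJ (exists_poly)
open Pool.Agent.N63.MT (core lv ku ex sn mn mn_ne mn_map ex_facts lp height_congr)

theorem exists_sep {K : Type} [Field K] (f : AbsoluteValue K ℝ) {ι : Type} [Fintype ι] (γ : ι → K)
    (hγ : Function.Injective γ) : ∃ c : ℝ, 0 < c ∧ ∀ i j, i ≠ j → c ≤ f (γ i - γ j) := by
  classical
  have h1 : ∀ P : ι × ι, ∃ c : ℝ, 0 < c ∧ (P.1 ≠ P.2 → c ≤ f (γ P.1 - γ P.2)) := by
    intro P
    by_cases h : P.1 = P.2
    · exact ⟨1, one_pos, fun h' => absurd h h'⟩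
    · exact ⟨f (γ P.1 - γ P.2), f.pos (sub_ne_zero.2 fun h' => h (hγ h')), fun _ => le_rfl⟩
  choose c hc0 hc using h1
  rcases isEmpty_or_nonempty (ι × ι) with h | h
  · exact ⟨1, one_pos, fun i j _ => (h.false (i, j)).elim⟩
  · obtain ⟨P, hP⟩ := Finite.exists_min c
    exact ⟨c P, hc0 P, fun i j hij => (hP (i, j)).trans (hc (i, j) hij)⟩

theorem exists_aux {k : Type} [Field k] [Infinite k] {P : Polynomial k} (hP : P ≠ 0) (n : ℕ) :
    ∃ γ : Fin n → k, Function.Injective γ ∧ ∀ i, P.eval (γ i) ≠ 0 := by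
  classical
  have h1 : ((P.roots.toFinset : Set k)ᶜ).Infinite := (Finset.finite_toSet _).infinite_compl
  let e := h1.natEmbedding
  refine ⟨fun i => (e i.1).1, ?_, ?_⟩
  · intro i j hij
    exact Fin.ext (e.injective (Subtype.ext hij))
  · intro i h0
    refine (e i.1).2 ?_
    rw [Finset.mem_coe, Multiset.mem_toFinset, Polynomial.mem_roots hP]
    exact h0

variable {k K : Type} [Field k] [NumberField k] [Field K] [NumberField K] [Algebra k K]
  {S : Finset (HeightOneSpectrum (𝓞 k))} {m : ℕ}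

theorem res_bc (F : ((Fin m → ℤ) × ℕ) →₀ k) (N d : ℕ) (u : Fin m → k) (x : Fin (d + 1) → k) :
    res (bc K F) N d (ku K u) (ku K x) = algebraMap k K (res F N d u x) := by
  unfold res
  rw [← Polynomial.resultant_map_map, bin_map]
  congr 1
  unfold pol
  rw [Polynomial.map_sum, bc_support]
  refine Finset.sum_congr rfl fun e _ => ?_
  have h1 : algebraMap k K (F e * mono u (e.1 + e.2 • 0 - 0)) =
      algebraMap k K (F e) * mono (ku K u) (e.1 + e.2 • 0 - 0) := by
    rw [map_mul, map_mono]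
    rfl
  rw [Polynomial.map_monomial, bc_apply, h1]

theorem log_nrm_le {n : ℕ} {x : Fin n → k} {i0 : Fin n} (h0 : x i0 = 1) {v : Pl k}
    (hv : v ∈ Sp S) : Real.log (nrm (av v) x) ≤ logHeight x := by
  obtain ⟨j, hj⟩ := exists_nrm (av v) i0.pos x
  rw [← hj]
  by_cases h : x j = 0
  · rw [h, map_zero, Real.log_zero]
    exact logHeight_nonneg _
  · exact (log_le_height (S := S) (x j) h hv).trans (height_coord_le h0 j)

theorem nf_big [IsGalois ℚ K] (hi : ∃ z : K, z ^ 2 = -1) (F : ((Fin m → ℤ) × ℕ) →₀ k)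
    {N : ℕ} (d : ℕ) (hN : 1 ≤ N) (hF : ∀ e ∈ F.support, e.2 ≤ N) (𝓜 : Finset (Fin m → ℤ))
    (hgood : ∀ μ ∈ 𝓜, (gpol F 0 μ).natDegree = N ∧ (gpol F 0 μ).Separable)
    (hsplit : ∀ μ ∈ 𝓜, ((gpol F 0 μ).map (algebraMap k K)).Splits)
    {ε δ : ℝ} (hε : 0 < ε) (hδ : 0 < δ) :
    ∃ (Z : Finset (Fin (d + 1) → MvPolynomial (Fin m) K)) (C1 C2 : ℝ), 0 ≤ C1 ∧ 0 ≤ C2 ∧
      (∀ P ∈ Z, P ≠ 0) ∧ ∀ (u : Fin m → k) (x : Fin (d + 1) → k) (i0 : Fin (d + 1)), x i0 = 1 →
        (∀ i, u i ≠ 0) → res F N d u x ≠ 0 → (∀ P ∈ Z, lv P (ku K u) (ku K x) ≠ 0) →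
        hs u + logHeight x ≤ C2 ∨ ∀ (T : Finset (Pl k)) (μ : Pl k → Fin m → ℤ), T ⊆ Sp S →
          (∀ v ∈ T, μ v ∈ 𝓜 ∧ ∀ e ∈ F.support, e.1 ≠ μ v → Real.log (av v (mono u e.1)) ≤
            Real.log (av v (mono u (μ v))) - δ * (hs u + logHeight x)) →
          ∑ v ∈ T, wt v * (d * Real.log (av v (mono u (μ v))) + N * Real.log (nrm (av v) x) -
            Real.log (av v (res F N d u x))) ≤
            (d + 1 + ε) * logHeight x + ε * hs u + C1 * ∑ i, ex (Sp S) (u i) + C2 := by
  classical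
  choose fa hfa using fun v : Pl k => exists_good (K := K) v
  have hfe : ∀ (v : Pl k) (y : k), fa v (algebraMap k K y) = av v y := fun v y => (hfa v).ext y
  obtain ⟨γ, hγ, hγP⟩ := exists_aux (k := k) (P := ∏ μ ∈ 𝓜, gpol F 0 μ) (by
    rw [Finset.prod_ne_zero_iff]
    intro μ hμ h0
    have h1 := (hgood μ hμ).1
    rw [h0, Polynomial.natDegree_zero] at h1
    omega) (d + 1)
  have hγ1 : ∀ μ ∈ 𝓜, ∀ i, (gpol F 0 μ).eval (γ i) ≠ 0 := by
    intro μ hμ i h0
    apply hγP i
    rw [Polynomial.eval_prod, Finset.prod_eq_zero hμ h0]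
  obtain ⟨γK, hγK⟩ : ∃ γK : Fin (d + 1) → K, ∀ i, γK i = algebraMap k K (γ i) :=
    ⟨fun i => algebraMap k K (γ i), fun _ => rfl⟩
  have hγKinj : Function.Injective γK := by
    intro i j hij
    rw [hγK, hγK] at hij
    exact hγ ((algebraMap k K).injective hij)
  -- the constants
  obtain ⟨CR, hCR0, hCR⟩ := height_res_le F N d
  obtain ⟨cM, hcM0, hcM⟩ : ∃ cM : ℝ, 0 ≤ cM ∧ ∀ μ ∈ 𝓜, ∑ i, |(μ i : ℝ)| ≤ cM :=
    ⟨∑ μ ∈ 𝓜, ∑ i, |(μ i : ℝ)|, Finset.sum_nonneg fun _ _ => Finset.sum_nonneg fun _ _ =>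
      abs_nonneg _, fun μ hμ => Finset.single_le_sum (f := fun μ : Fin m → ℤ => ∑ i, |(μ i : ℝ)|)
        (fun _ _ => Finset.sum_nonneg fun _ _ => abs_nonneg _) hμ⟩
  obtain ⟨L, hLL⟩ := exists_nat_ge ((N + d * cM + CR * 2) / δ)
  have hloc := fun (μ : 𝓜) (v : Pl k) => loc_near (fa v) (F := bc K F) (μ := μ.1) d hN
    (by rw [bc_support]; exact hF) (by
      rw [gpol_bc, Polynomial.natDegree_map_eq_of_injective (algebraMap k K).injective]
      exact (hgood μ.1 μ.2).1) (by
      rw [gpol_bc]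
      exact hsplit μ.1 μ.2) (by
      rw [gpol_bc]
      exact (hgood μ.1 μ.2).2.map) γK hγKinj (by
      intro i h0
      rw [gpol_bc, hγK, Polynomial.eval_map, Polynomial.eval₂_at_apply] at h0
      exact hγ1 μ.1 μ.2 i ((map_eq_zero _).1 h0)) L
  choose ρ₀ c A hρpos hρ1 hcpos hL using hloc
  -- the nodes as Laurent polynomials
  obtain ⟨TT, hTT⟩ : ∃ TT : 𝓜 → Finset (K ⊕ Fin (d + 1)), ∀ μ, TT μ =
      (gpol (bc K F) 0 μ.1).roots.toFinset.disjSum Finset.univ :=
    ⟨fun μ => (gpol (bc K F) 0 μ.1).roots.toFinset.disjSum Finset.univ, fun _ => rfl⟩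
  simp only [← hTT] at hL
  have hcst : ∀ (i : Fin (d + 1)) (w : Fin m → K), ev (Finsupp.single 0 (γK i)) w = γK i := by
    intro i w
    rw [ev_single, mono_zero, mul_one]
  have hnode : ∀ (μ : 𝓜) (a : K ⊕ Fin (d + 1)), ∃ B : (Fin m → ℤ) →₀ K, a ∈ TT μ →
      ∀ w : Fin m → K, (∀ i, w i ≠ 0) → ev B w =
        node (pol (bc K F) 0 μ.1 w) (gpol (bc K F) 0 μ.1) L γK a := by
    intro μ a
    obtain ⟨Bs, -, hBs⟩ := exists_tg (bc K F) 0 μ.1 L
    by_cases ha : a ∈ TT μ
    · rcases a with β | i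
      · rw [hTT] at ha
        obtain ⟨B, -, hB⟩ := hBs β (Multiset.mem_toFinset.1 (Finset.inl_mem_disjSum.1 ha))
        refine ⟨B, fun _ w hw => ?_⟩
        rw [hB w hw, mono_zero, one_mul]
        rfl
      · refine ⟨Finsupp.single 0 (γK i), fun _ w _ => ?_⟩
        rw [hcst]
        rfl
    · exact ⟨0, fun h => absurd h ha⟩
  choose nb hnb using hnode
  obtain ⟨𝓑, h𝓑1, h𝓑2⟩ : ∃ 𝓑 : Finset ((Fin m → ℤ) →₀ K), (∀ μ, ∀ a ∈ TT μ, nb μ a ∈ 𝓑) ∧
      ∀ i, Finsupp.single 0 (γK i) ∈ 𝓑 := by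
    refine ⟨(Finset.univ.biUnion fun μ : 𝓜 => (TT μ).image (nb μ)) ∪
      Finset.univ.image fun i => Finsupp.single 0 (γK i), ?_, ?_⟩
    · intro μ a ha
      exact Finset.mem_union_left _ (Finset.mem_biUnion.2
        ⟨μ, Finset.mem_univ _, Finset.mem_image_of_mem _ ha⟩)
    · intro i
      exact Finset.mem_union_right _ (Finset.mem_image_of_mem _ (Finset.mem_univ _))
  obtain ⟨E, q, hq⟩ := exists_poly 𝓑
  obtain ⟨a, ha⟩ : ∃ a : 𝓑 → Fin (d + 1) → MvPolynomial (Fin m) K, ∀ B, a B = frm E (q B.1) :=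
    ⟨fun B => frm E (q B.1), fun _ => rfl⟩
  obtain ⟨Z, C1, C2, hC1, hC2, hZ, hmain⟩ := core hi (Sp S) fa hfa (n := d + 1) (Nat.succ_pos d) a
    ε hε
  -- comparison
  choose c0 hc0 hc0' using fun v : Pl k => exists_sep (fa v) γK hγKinj
  obtain ⟨cc, hcc0, hccn, hccs⟩ : ∃ cc : Option 𝓜 → Pl k → ℝ, (∀ o v, 0 < cc o v) ∧
      (∀ v, cc none v = c0 v) ∧ ∀ μ v, cc (some μ) v = c μ v := by
    refine ⟨fun o => Option.elim o c0 c, ?_, fun _ => rfl, fun _ _ => rfl⟩
    rintro (_ | μ) v
    · exact hc0 v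
    · exact hcpos μ v
  choose Ac hAc using fun (P : Option 𝓜 × (Fin (d + 1) → 𝓑)) (v : Pl k) =>
    cmp_frm (fa v) E (fun i => q (P.2 i).1) (hcc0 P.1 v)
  obtain ⟨Dγ, hDγ⟩ : ∃ Dγ : Pl k → ℝ, ∀ v, Dγ v =
      Real.log ((d + 1) * (1 + ∑ i, fa v (γK i)) ^ d) := ⟨_, fun _ => rfl⟩
  obtain ⟨CA, hCA0, hCAle⟩ := bound2 (Sp S) A
  obtain ⟨Cc, hCc0, hCcle⟩ := bound2 (Sp S) Ac
  obtain ⟨Cρ, hCρ0, hCρle⟩ := bound2 (Sp S) fun μ v => -Real.log (ρ₀ μ v)
  obtain ⟨CD, hCD0, hCDle⟩ := bound2 (Sp S) fun (_ : Fin 1) v => (d + 1) * Dγ v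
  obtain ⟨W, hW⟩ : ∃ W : ℝ, W = wS S := ⟨_, rfl⟩
  have hwS : 0 ≤ W := by rw [hW]; exact wS_nonneg S
  obtain ⟨CC, hCC⟩ : ∃ CC : ℝ, CC = CA + Cc + CD := ⟨_, rfl⟩
  have hCC0 : 0 ≤ CC := by
    rw [hCC]
    positivity
  refine ⟨Z, C1, C2 + CC * W + 1 + Cρ / δ, hC1, by positivity, hZ, ?_⟩
  intro u x i0 hx0 hu hres hoff
  obtain ⟨H, hH⟩ : ∃ H : ℝ, H = hs u + logHeight x := ⟨_, rfl⟩
  rw [← hH]
  by_cases hHC : H ≤ C2 + CC * W + 1 + Cρ / δ
  · exact Or.inl hHC
  right
  push Not at hHC
  intro T μ hT hnear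
  have hp1 : 0 ≤ Cρ / δ := div_nonneg hCρ0 hδ.le
  have hp2 : 0 ≤ CC * W := mul_nonneg hCC0 hwS
  have hH1 : 1 ≤ H := by linarith
  have hHρ : Cρ ≤ δ * H := by
    have : Cρ / δ ≤ H := by linarith
    rw [div_le_iff₀ hδ] at this
    linarith
  have hx1 : 0 ≤ logHeight x := logHeight_nonneg _
  have hu1 : 0 ≤ hs u := hs_nonneg u
  have huK0 : ∀ i, ku K u i ≠ 0 := fun i => (_root_.map_ne_zero _).2 (hu i)
  have hresK : res (bc K F) N d (ku K u) (ku K x) ≠ 0 := by
    rw [res_bc]
    exact (_root_.map_ne_zero _).2 hres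
  obtain ⟨hne, -, hineq⟩ := hmain u x hu hoff
  have hqe : ∀ B : 𝓑, MvPolynomial.eval (ku K u) (q B.1) = mn (ku K u) E * ev B.1 (ku K u) :=
    fun B => hq B.1 B.2 (ku K u) huK0
  have hev : ∀ B : 𝓑, (bin (ku K x)).eval (ev B.1 (ku K u)) ≠ 0 := by
    intro B h0
    refine hne B ?_ ?_
    · intro h1
      rw [ha] at h1
      have h2 := congrFun h1 0
      unfold frm at h2
      rw [Fin.val_zero, pow_zero, one_mul, Pi.zero_apply] at h2
      have h3 : (MvPolynomial.monomial E (1 : K) : MvPolynomial (Fin m) K) ≠ 0 := by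
        rw [Ne, MvPolynomial.monomial_eq_zero]
        exact one_ne_zero
      exact pow_ne_zero _ h3 h2
    · rw [ha, lv_frm E (q B.1) (ku K u) (hqe B), h0, mul_zero]
  -- the local inequalities
  have hlocal : ∀ v : Pl k, ∃ (J : Fin (d + 1) → 𝓑) (I : Fin m →₀ ℕ),
      I ∈ (Matrix.of fun j => a (J j)).det.support ∧ (v ∈ Sp S →
        (if v ∈ T then d * Real.log (av v (mono u (μ v))) + N * Real.log (nrm (av v) x) -
            Real.log (av v (res F N d u x)) else 0) ≤
          CC + (∑ j, (Real.log (sn (av v) x) -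
            Real.log (fa v (lv (a (J j)) (ku K u) (ku K x)))) + Real.log (av v (mn u I)))) := by
    intro v
    have hmn : ∀ I : Fin m →₀ ℕ, fa v (mn (ku K u) I) = av v (mn u I) := by
      intro I
      have h1 : mn (ku K u) I = algebraMap k K (mn u I) := mn_map (algebraMap k K) u I
      rw [h1, hfe]
    by_cases hv : v ∈ T
    · -- near places
      obtain ⟨hμ, hface⟩ := hnear v hv
      have hvS := hT hv
      obtain ⟨hsep, hloc⟩ := hL ⟨μ v, hμ⟩ v (ku K u) (Real.exp (-(δ * H))) huK0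
        (Real.exp_pos _).le (by
          have h2 := hCρle v hvS ⟨μ v, hμ⟩
          have h3 : -(δ * H) ≤ Real.log (ρ₀ ⟨μ v, hμ⟩ v) := by linarith
          calc Real.exp (-(δ * H)) ≤ Real.exp (Real.log (ρ₀ ⟨μ v, hμ⟩ v)) := Real.exp_le_exp.2 h3
            _ = ρ₀ ⟨μ v, hμ⟩ v := Real.exp_log (hρpos _ _)) (by
          intro e he hoffe
          rw [bc_support] at he
          have h1 : mono (ku K u) (e.1 - μ v) = algebraMap k K (mono u (e.1 - μ v)) :=
            (map_mono (algebraMap k K) u _).symm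
          show fa v (mono (ku K u) (e.1 - μ v)) ≤ _
          rw [h1, hfe]
          have h2 := hface e he hoffe
          have h3 : 0 < av v (mono u (e.1 - μ v)) := (av v).pos (mono_ne hu _)
          rw [← Real.log_le_iff_le_exp h3, log_av_mono hu, dt_sub]
          rw [log_av_mono hu, log_av_mono hu] at h2
          linarith)
      obtain ⟨j, hj⟩ := exists_nrm (av v) i0.pos x
      have hnpos : 0 < nrm (av v) x := nrm_pos (av v) (fun h => by
        have := congrFun h i0
        rw [hx0] at this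
        exact one_ne_zero this)
      have hxj : x j ≠ 0 := by
        intro h0
        rw [h0, map_zero] at hj
        exact hnpos.ne hj
      have hnode2 : ∀ b ∈ TT ⟨μ v, hμ⟩,
          node (pol (bc K F) 0 (μ v) (ku K u)) (gpol (bc K F) 0 (μ v)) L γK b =
            ev (nb ⟨μ v, hμ⟩ b) (ku K u) := fun b hb => (hnb ⟨μ v, hμ⟩ b hb (ku K u) huK0).symm
      obtain ⟨J', hJT, hJc, hJs⟩ := hloc (ku K x) j ((_root_.map_ne_zero _).2 hxj) (by
          intro i
          show fa v (algebraMap k K (x i)) ≤ fa v (algebraMap k K (x j))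
          rw [hfe, hfe, hj]
          exact le_nrm (av v) x i) (by
          intro b hb
          show (bin (ku K x)).eval (node (pol (bc K F) 0 (μ v) (ku K u))
            (gpol (bc K F) 0 (μ v)) L γK b) ≠ 0
          rw [hnode2 b hb]
          exact hev ⟨_, h𝓑1 _ b hb⟩) hresK (by
          have h1 : fa v (ku K x j) = nrm (av v) x := by
            show fa v (algebraMap k K (x j)) = _
            rw [hfe, hj]
          have h2 : fa v (mono (ku K u) (-(μ v))) = av v (mono u (-(μ v))) := by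
            have h3 : mono (ku K u) (-(μ v)) = algebraMap k K (mono u (-(μ v))) :=
              (map_mono (algebraMap k K) u _).symm
            rw [h3, hfe]
          show Real.exp (-(δ * H)) ^ (L + 1) * fa v (ku K x j) ^ N ≤
            fa v (mono (ku K u) (-(μ v))) ^ d * fa v (res (bc K F) N d (ku K u) (ku K x))
          rw [h1, h2, res_bc, hfe]
          have h4 : 0 < av v (mono u (-(μ v))) := (av v).pos (mono_ne hu _)
          have h5 : 0 < av v (res F N d u x) := (av v).pos hres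
          rw [← Real.log_le_log_iff (by positivity) (by positivity),
            Real.log_mul (by positivity) (by positivity),
            Real.log_mul (by positivity) (by positivity), Real.log_pow, Real.log_pow,
            Real.log_pow, Real.log_exp, log_av_mono hu, dt_neg]
          have h6 := neg_log_le_height (S := S) (res F N d u x) hres hvS
          have h7 := hCR u x (logHeight x) fun i => height_coord_le hx0 i
          rw [← hH] at h7
          have h8 : CR * (H + 1) ≤ CR * 2 * H := by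
            rw [mul_assoc]
            exact mul_le_mul_of_nonneg_left (by linarith) hCR0
          have h9 : dt (dir u v) (μ v) ≤ cM * H := by
            rw [← log_av_mono hu]
            refine (log_le_height (S := S) _ (mono_ne hu _) hvS).trans ?_
            refine (height_mono_le u (μ v)).trans ?_
            exact mul_le_mul (hcM _ hμ) (by linarith) hu1 hcM0
          have h10 : Real.log (nrm (av v) x) ≤ H :=
            (log_nrm_le (S := S) hx0 hvS).trans (by linarith)
          have h11 : (N + d * cM + CR * 2) * H ≤ (L : ℝ) * (δ * H) := by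
            rw [div_le_iff₀ hδ] at hLL
            calc (N + d * cM + CR * 2) * H ≤ (L * δ) * H :=
                  mul_le_mul_of_nonneg_right hLL (by linarith)
              _ = _ := by ring
          have h12 : (N : ℝ) * Real.log (nrm (av v) x) ≤ N * H :=
            mul_le_mul_of_nonneg_left h10 (Nat.cast_nonneg _)
          have h13 : (d : ℝ) * dt (dir u v) (μ v) ≤ d * (cM * H) :=
            mul_le_mul_of_nonneg_left h9 (Nat.cast_nonneg _)
          have h14 : 0 ≤ δ * H := by positivity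
          push_cast
          nlinarith)
      have e0 := J'.equivFinOfCardEq hJc
      obtain ⟨e, -⟩ : ∃ e : Fin (d + 1) ≃ J', True := ⟨e0.symm, trivial⟩
      have heT : ∀ i, (e i).1 ∈ TT ⟨μ v, hμ⟩ := fun i => hJT (e i).2
      obtain ⟨J, hJ⟩ : ∃ J : Fin (d + 1) → 𝓑, ∀ i, (J i).1 = nb ⟨μ v, hμ⟩ (e i).1 :=
        ⟨fun i => ⟨nb ⟨μ v, hμ⟩ (e i).1, h𝓑1 _ _ (heT i)⟩, fun _ => rfl⟩
      obtain ⟨I, hI, hIs⟩ := hAc (some ⟨μ v, hμ⟩, J) v (ku K u) (fun i => ev (J i).1 (ku K u))
        (ku K x) (Real.log (nrm (av v) x)) huK0 (fun i => hqe (J i)) (by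
          intro i j hij
          rw [hccs]
          show _ ≤ fa v (ev (J i).1 (ku K u) - ev (J j).1 (ku K u))
          rw [hJ, hJ, ← hnode2 _ (heT i), ← hnode2 _ (heT j)]
          exact hsep _ (heT i) _ (heT j) fun h => hij (e.injective (Subtype.ext h)))
        (fun i => hev (J i))
      refine ⟨J, I, ?_, fun _ => ?_⟩
      · simp only [ha]
        exact hI
      · rw [if_pos hv]
        have h1 : fa v (ku K x j) = nrm (av v) x := by
          show fa v (algebraMap k K (x j)) = _
          rw [hfe, hj]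
        have h2 : fa v (mono (ku K u) (μ v)) = av v (mono u (μ v)) := by
          have h3 : mono (ku K u) (μ v) = algebraMap k K (mono u (μ v)) :=
            (map_mono (algebraMap k K) u _).symm
          rw [h3, hfe]
        have h3 : d * Real.log (fa v (mono (ku K u) (μ v))) + N * Real.log (fa v (ku K x j)) -
            Real.log (fa v (res (bc K F) N d (ku K u) (ku K x))) ≤
            A ⟨μ v, hμ⟩ v + ∑ b ∈ J', (Real.log (fa v (ku K x j)) - Real.log (fa v ((bin (ku K x)).eval
              (node (pol (bc K F) 0 (μ v) (ku K u)) (gpol (bc K F) 0 (μ v)) L γK b)))) := hJs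
        rw [h1, h2, res_bc, hfe] at h3
        have h4 : ∑ b ∈ J', (Real.log (nrm (av v) x) - Real.log (fa v ((bin (ku K x)).eval
            (node (pol (bc K F) 0 (μ v) (ku K u)) (gpol (bc K F) 0 (μ v)) L γK b)))) =
            ∑ i, (Real.log (nrm (av v) x) -
              Real.log (fa v ((bin (ku K x)).eval (ev (J i).1 (ku K u))))) := by
          rw [← Finset.sum_coe_sort J', ← e.sum_comp]
          refine Finset.sum_congr rfl fun i _ => ?_
          rw [hJ, hnode2 _ (heT i)]
        rw [h4] at h3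
        have h5 : ∑ i, (Real.log (nrm (av v) x) -
              Real.log (fa v ((bin (ku K x)).eval (ev (J i).1 (ku K u))))) ≤
            Ac (some ⟨μ v, hμ⟩, J) v + (∑ i, (Real.log (sn (av v) x) -
              Real.log (fa v (lv (a (J i)) (ku K u) (ku K x)))) + Real.log (av v (mn u I))) := by
          simp only [ha]
          rw [← hmn]
          exact hIs
        have h6 := hCAle v hvS ⟨μ v, hμ⟩
        have h7 := hCcle v hvS (some ⟨μ v, hμ⟩, J)
        linarith
    · -- the other places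
      obtain ⟨J, hJ⟩ : ∃ J : Fin (d + 1) → 𝓑, ∀ i, (J i).1 = Finsupp.single 0 (γK i) :=
        ⟨fun i => ⟨Finsupp.single 0 (γK i), h𝓑2 i⟩, fun _ => rfl⟩
      have hJe : ∀ i, ev (J i).1 (ku K u) = γK i := fun i => by rw [hJ, hcst]
      obtain ⟨I, hI, hIs⟩ := hAc (none, J) v (ku K u) (fun i => ev (J i).1 (ku K u))
        (ku K x) (Real.log (nrm (av v) x)) huK0 (fun i => hqe (J i)) (by
          intro i j hij
          rw [hccn]
          show _ ≤ fa v (ev (J i).1 (ku K u) - ev (J j).1 (ku K u))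
          rw [hJe, hJe]
          exact hc0' v i j hij)
        (fun i => hev (J i))
      refine ⟨J, I, ?_, fun hvS => ?_⟩
      · simp only [ha]
        exact hI
      · rw [if_neg hv]
        have h5 : ∑ i, (Real.log (nrm (av v) x) -
              Real.log (fa v ((bin (ku K x)).eval (ev (J i).1 (ku K u))))) ≤
            Ac (none, J) v + (∑ i, (Real.log (sn (av v) x) -
              Real.log (fa v (lv (a (J i)) (ku K u) (ku K x)))) + Real.log (av v (mn u I))) := by
          simp only [ha]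
          rw [← hmn]
          exact hIs
        have hnpos : 0 < nrm (av v) x := nrm_pos (av v) (fun h => by
          have := congrFun h i0
          rw [hx0] at this
          exact one_ne_zero this)
        have h6 : ∀ i, -Dγ v ≤ Real.log (nrm (av v) x) -
            Real.log (fa v ((bin (ku K x)).eval (ev (J i).1 (ku K u)))) := by
          intro i
          have hA1 : (1 : ℝ) ≤ 1 + ∑ i, fa v (γK i) := by
            have : 0 ≤ ∑ i, fa v (γK i) := Finset.sum_nonneg fun _ _ => (fa v).nonneg _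
            linarith
          have h7 := eval_le (fa v) (bin_natDegree (ku K x)) hA1 (B := nrm (av v) x) (by
            intro l
            rcases Nat.lt_or_ge l (d + 1) with h8 | h8
            · have h9 := bin_coeff (ku K x) ⟨l, h8⟩
              simp only at h9
              rw [h9]
              show fa v (algebraMap k K (x _)) ≤ _
              rw [hfe]
              exact le_nrm (av v) x _
            · rw [bin_coeff_ge _ h8, map_zero]
              exact hnpos.le) (x := ev (J i).1 (ku K u)) (by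
            rw [hJe]
            have := Finset.single_le_sum (f := fun i => fa v (γK i))
              (fun _ _ => (fa v).nonneg _) (Finset.mem_univ i)
            linarith)
          have h8 := Real.log_le_log ((fa v).pos (hev (J i))) h7
          rw [Real.log_mul (by positivity) hnpos.ne', ← hDγ] at h8
          linarith
        have h7 : -((d + 1) * Dγ v) ≤ ∑ i, (Real.log (nrm (av v) x) -
            Real.log (fa v ((bin (ku K x)).eval (ev (J i).1 (ku K u))))) := by
          have h8 := Finset.sum_le_sum fun (i : Fin (d + 1)) (_ : i ∈ Finset.univ) => h6 i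
          rw [Finset.sum_const, Finset.card_univ, Fintype.card_fin, nsmul_eq_mul] at h8
          push_cast at h8
          linarith
        have h8 := hCDle v hvS 0
        have h9 := hCcle v hvS (none, J)
        linarith
  choose J I hI hb using hlocal
  have hfinal := hineq J I hI
  have hsum : ∑ v ∈ T, wt v * (d * Real.log (av v (mono u (μ v))) + N * Real.log (nrm (av v) x) -
      Real.log (av v (res F N d u x))) = ∑ v ∈ Sp S, wt v * (if v ∈ T then
        d * Real.log (av v (mono u (μ v))) + N * Real.log (nrm (av v) x) -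
          Real.log (av v (res F N d u x)) else 0) := by
    rw [← Finset.sum_subset hT]
    · exact Finset.sum_congr rfl fun v hv => by rw [if_pos hv]
    · intro v _ hv
      rw [if_neg hv, mul_zero]
  rw [hsum]
  have h1 : ∑ v ∈ Sp S, wt v * (if v ∈ T then
        d * Real.log (av v (mono u (μ v))) + N * Real.log (nrm (av v) x) -
          Real.log (av v (res F N d u x)) else 0) ≤
      CC * W + ∑ v ∈ Sp S, wt v * (∑ j, (Real.log (sn (av v) x) -
            Real.log (fa v (lv (a (J v j)) (ku K u) (ku K x)))) + Real.log (av v (mn u (I v)))) := by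
    rw [hW]
    unfold wS
    rw [Finset.mul_sum, ← Finset.sum_add_distrib]
    refine Finset.sum_le_sum fun v hv => ?_
    have h2 := mul_le_mul_of_nonneg_left (hb v hv) (wt_nonneg v)
    rw [mul_add] at h2
    linarith
  have h2 : ∑ i, logHeight₁ (u i) = hs u := rfl
  rw [h2] at hfinal
  push_cast at hfinal
  linarith

end Pool.Agent.Run7.h489.NF
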