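import Mathlib
import Pool.Agent.Run7.h489.NF.Big

set_option autoImplicit false
set_option linter.unusedSectionVars false

/-!
The inequality for the resultants over the base field.
-/

namespace Pool.Agent.Run7.h489.NF

open Height NumberField IsDedekindDomain
open Pool.Agent.W180.OP (Pl av wt fv nrm wt_nonneg le_nrm exists_nrm nrm_pos)
open Pool.Agent.R404.TC (Sp)
open Pool.Agent.Run7.h489.TM
open Pool.Agent.N63.MT (lv ku ex ex_facts descend)

section

variable {K : Type} [Field K] {m : ℕ}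

theorem bin_smul {n : ℕ} (c : K) (x : Fin n → K) : bin (c • x) = Polynomial.C c * bin x := by
  unfold bin
  rw [Finset.mul_sum]
  refine Finset.sum_congr rfl fun i _ => ?_
  rw [Pi.smul_apply, smul_eq_mul, map_mul]
  ring

theorem res_smul (F : ((Fin m → ℤ) × ℕ) →₀ K) (N d : ℕ) (u : Fin m → K) (c : K)
    (x : Fin (d + 1) → K) : res F N d u (c • x) = c ^ N * res F N d u x := by
  unfold res
  rw [bin_smul, Polynomial.resultant_C_mul_right]

theorem nrm_smul {n : ℕ} (f : AbsoluteValue K ℝ) (c : K) (x : Fin n → K) :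
    nrm f (c • x) = f c * nrm f x := by
  unfold nrm
  rw [Real.mul_iSup_of_nonneg (f.nonneg c)]
  congr 1
  funext i
  rw [Pi.smul_apply, smul_eq_mul, map_mul]

theorem lv_smul {n : ℕ} (P : Fin n → MvPolynomial (Fin m) K) (u : Fin m → K) (c : K)
    (x : Fin n → K) : lv P u (c • x) = c * lv P u x := by
  unfold lv
  rw [Finset.mul_sum]
  refine Finset.sum_congr rfl fun i _ => ?_
  rw [Pi.smul_apply, smul_eq_mul]
  ring

end

variable {k : Type} [Field k] [NumberField k] {S : Finset (HeightOneSpectrum (𝓞 k))} {m : ℕ}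

/-- the local term -/
noncomputable def term (F : ((Fin m → ℤ) × ℕ) →₀ k) (N d : ℕ) (μ : Fin m → ℤ)
    (f : AbsoluteValue k ℝ) (u : Fin m → k) (x : Fin (d + 1) → k) : ℝ :=
  d * Real.log (f (mono u μ)) + N * Real.log (nrm f x) - Real.log (f (res F N d u x))

theorem term_smul (F : ((Fin m → ℤ) × ℕ) →₀ k) (N d : ℕ) (μ : Fin m → ℤ)
    (f : AbsoluteValue k ℝ) (u : Fin m → k) {x : Fin (d + 1) → k} (hx : x ≠ 0)
    (hres : res F N d u x ≠ 0) {c : k} (hc : c ≠ 0) :
    term F N d μ f u (c • x) = term F N d μ f u x := by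
  unfold term
  have h1 : 0 < f c := f.pos hc
  have h2 : 0 < nrm f x := nrm_pos f hx
  have h3 : 0 < f (res F N d u x) := f.pos hres
  rw [nrm_smul, res_smul, map_mul, map_pow, Real.log_mul h1.ne' h2.ne',
    Real.log_mul (by positivity) h3.ne', Real.log_pow]
  ring

theorem nf_base (F : ((Fin m → ℤ) × ℕ) →₀ k)
    {N : ℕ} (d : ℕ) (hN : 1 ≤ N) (hF : ∀ e ∈ F.support, e.2 ≤ N) (𝓜 : Finset (Fin m → ℤ))
    (hgood : ∀ μ ∈ 𝓜, (gpol F 0 μ).natDegree = N ∧ (gpol F 0 μ).Separable)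
    {ε δ : ℝ} (hε : 0 < ε) (hδ : 0 < δ) :
    ∃ (Z : Finset (Fin (d + 1) → MvPolynomial (Fin m) k)) (C1 C2 : ℝ), 0 ≤ C1 ∧ 0 ≤ C2 ∧
      (∀ P ∈ Z, P ≠ 0) ∧ ∀ (u : Fin m → k) (x : Fin (d + 1) → k), x ≠ 0 →
        (∀ i, u i ≠ 0) → res F N d u x ≠ 0 → (∀ P ∈ Z, lv P u x ≠ 0) →
        ∀ (T : Finset (Pl k)) (μ : Pl k → Fin m → ℤ), T ⊆ Sp S →
          (∀ v ∈ T, μ v ∈ 𝓜 ∧ ∀ e ∈ F.support, e.1 ≠ μ v → Real.log (av v (mono u e.1)) ≤
            Real.log (av v (mono u (μ v))) - δ * (hs u + logHeight x)) →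
          ∑ v ∈ T, wt v * term F N d (μ v) (av v) u x ≤
            (d + 1 + ε) * logHeight x + ε * hs u + C1 * ∑ i, ex (Sp S) (u i) + C2 := by
  classical
  obtain ⟨P, hP⟩ : ∃ P : Polynomial k, P = ∏ μ ∈ 𝓜, gpol F 0 μ := ⟨_, rfl⟩
  have hP0 : P ≠ 0 := by
    rw [hP, Finset.prod_ne_zero_iff]
    intro μ hμ h0
    have h1 := (hgood μ hμ).1
    rw [h0, Polynomial.natDegree_zero] at h1
    omega
  obtain ⟨M, hM1, hM2, hM3, hM4, hi, h2⟩ := exists_split P
  obtain ⟨Z, C1, C2, hC1, hC2, hZ, hmain⟩ := nf_big (K := M) (S := S) hi F d hN hF 𝓜 hgood (by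
    intro μ hμ
    refine h2.of_dvd ?_ (Polynomial.map_dvd _ ?_)
    · rw [Polynomial.map_ne_zero_iff (algebraMap k M).injective]
      exact hP0
    · rw [hP]
      exact Finset.dvd_prod_of_mem _ hμ) hε hδ
  have hdes := fun P : {P // P ∈ Z} => descend (k := k) P.1 (hZ P.1 P.2)
  choose Pd hPd1 hPd2 using hdes
  have hfin : {p : (Fin m → k) × (Fin (d + 1) → k) | (∀ i, logHeight₁ (p.1 i) ≤ C2) ∧
      ∀ i, logHeight₁ (p.2 i) ≤ C2}.Finite := by
    have h1 : {x : k | logHeight₁ x ≤ C2}.Finite := finite_setOfPred_logHeight₁_le k C2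
    have h2 : (Set.pi Set.univ fun _ : Fin m => {x : k | logHeight₁ x ≤ C2}).Finite :=
      Set.Finite.pi fun _ => h1
    have h3 : (Set.pi Set.univ fun _ : Fin (d + 1) => {x : k | logHeight₁ x ≤ C2}).Finite :=
      Set.Finite.pi fun _ => h1
    refine (h2.prod h3).subset ?_
    rintro ⟨u, x⟩ h
    exact ⟨fun i _ => h.1 i, fun i _ => h.2 i⟩
  obtain ⟨C3, hC3⟩ : ∃ C3 : ℝ, ∀ p ∈ {p : (Fin m → k) × (Fin (d + 1) → k) |
      (∀ i, logHeight₁ (p.1 i) ≤ C2) ∧ ∀ i, logHeight₁ (p.2 i) ≤ C2},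
      ∑ v ∈ Sp S, ∑ μ ∈ 𝓜, |wt v * term F N d μ (av v) p.1 p.2| ≤ C3 := by
    obtain ⟨C3, h⟩ := (hfin.image fun p : (Fin m → k) × (Fin (d + 1) → k) =>
      ∑ v ∈ Sp S, ∑ μ ∈ 𝓜, |wt v * term F N d μ (av v) p.1 p.2|).bddAbove
    exact ⟨C3, fun p hp => h (Set.mem_image_of_mem _ hp)⟩
  refine ⟨Finset.univ.image Pd, C1, C2 + |C3|, hC1, by positivity, ?_, ?_⟩
  · intro P hP
    obtain ⟨P', -, rfl⟩ := Finset.mem_image.1 hP
    exact hPd1 P'
  · intro u y hy hu hres0 hZy T μ hT hnear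
    obtain ⟨i0, hi0⟩ := Function.ne_iff.1 hy
    rw [Pi.zero_apply] at hi0
    obtain ⟨c, hc⟩ : ∃ c : k, c = (y i0)⁻¹ := ⟨_, rfl⟩
    have hc0 : c ≠ 0 := by
      rw [hc]
      exact inv_ne_zero hi0
    obtain ⟨x, hx⟩ : ∃ x : Fin (d + 1) → k, x = c • y := ⟨_, rfl⟩
    have hx0 : x i0 = 1 := by
      rw [hx, Pi.smul_apply, smul_eq_mul, hc, inv_mul_cancel₀ hi0]
    have hhx : logHeight x = logHeight y := by
      rw [hx]
      exact logHeight_smul_eq_logHeight y hc0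
    have hres : res F N d u x ≠ 0 := by
      rw [hx, res_smul]
      exact mul_ne_zero (pow_ne_zero _ hc0) hres0
    have hZx : ∀ P ∈ Finset.univ.image Pd, lv P u x ≠ 0 := by
      intro P hP
      rw [hx, lv_smul]
      exact mul_ne_zero hc0 (hZy P hP)
    have hterm : ∀ v, term F N d (μ v) (av v) u y = term F N d (μ v) (av v) u x := by
      intro v
      rw [hx, term_smul F N d (μ v) (av v) u hy hres0 hc0]
    simp only [hterm]
    rw [← hhx] at hnear ⊢
    have h1 := hmain u x i0 hx0 hu hres fun P hP => hPd2 ⟨P, hP⟩ u x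
      (hZx _ (Finset.mem_image_of_mem _ (Finset.mem_univ _)))
    have hex : 0 ≤ ∑ i, ex (Sp S) (u i) := Finset.sum_nonneg fun i _ => (ex_facts _ (hu i)).2.2.1
    have hH : 0 ≤ logHeight x := logHeight_nonneg _
    have hHu : 0 ≤ hs u := hs_nonneg u
    have h3 : 0 ≤ (d + 1 + ε) * logHeight x := by positivity
    have h4 : 0 ≤ C1 * ∑ i, ex (Sp S) (u i) := mul_nonneg hC1 hex
    have h5 : 0 ≤ ε * hs u := by positivity
    rcases h1 with h1 | h1
    · have h6 := hC3 (u, x) ⟨fun i => by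
        have h7 : logHeight₁ (u i) ≤ hs u := Finset.single_le_sum (f := fun i => logHeight₁ (u i))
          (fun _ _ => zero_le_logHeight₁ _) (Finset.mem_univ i)
        linarith, fun i => by
        have h7 := height_coord_le hx0 i
        linarith⟩
      have h7 : ∑ v ∈ T, wt v * term F N d (μ v) (av v) u x ≤
          ∑ v ∈ Sp S, ∑ μ ∈ 𝓜, |wt v * term F N d μ (av v) u x| := by
        refine (Finset.sum_le_sum fun v hv => ?_).trans (Finset.sum_le_sum_of_subset_of_nonneg hT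
          fun v _ _ => Finset.sum_nonneg fun _ _ => abs_nonneg _)
        refine (le_abs_self _).trans ?_
        exact Finset.single_le_sum (f := fun μ => |wt v * term F N d μ (av v) u x|)
          (fun _ _ => abs_nonneg _) (hnear v hv).1
      have h8 := le_abs_self C3
      linarith
    · have h6 := abs_nonneg C3
      have h7 := h1 T μ hT hnear
      unfold term
      linarith

end Pool.Agent.Run7.h489.NF
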