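import Mathlib
import Pool.Agent.Run7.h489.NF.Base
import Pool.Agent.Run7.h489.TM.Cnt
import Pool.Agent.N63.MT.Full

set_option autoImplicit false
set_option linter.unusedSectionVars false

/-!
The inequality for almost all tuples of units.
-/

namespace Pool.Agent.Run7.h489.NF

open Height NumberField IsDedekindDomain
open Pool.Agent.W180.OP (Pl av wt fv nrm wt_nonneg le_nrm exists_nrm nrm_pos)
open Pool.Agent.R404.TC (Sp)
open Pool.Agent.Run7.h489.LV (IsU IsI mem_Sp_inl mem_Sp_inr)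
open Pool.Agent.Run7.h489.TM
open Pool.Agent.N63.MT (lv ku ex ex_facts descend)

variable {k : Type} [Field k] [NumberField k] {S : Finset (HeightOneSpectrum (𝓞 k))} {m : ℕ}

open Classical in
/-- the exponents of `u` -/
noncomputable def expo1 {R : Type} [Zero R] (F : ((Fin m → ℤ) × ℕ) →₀ R) : Finset (Fin m → ℤ) :=
  F.support.image Prod.fst

/-- the maximum of the monomials -/
noncomputable def mx (F : ((Fin m → ℤ) × ℕ) →₀ k) (f : AbsoluteValue k ℝ) (u : Fin m → k) : ℝ :=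
  ⨆ a : (expo1 F : Set (Fin m → ℤ)), f (mono u a.1)

/-- the full local term -/
noncomputable def fterm (F : ((Fin m → ℤ) × ℕ) →₀ k) (N d : ℕ)
    (f : AbsoluteValue k ℝ) (u : Fin m → k) (x : Fin (d + 1) → k) : ℝ :=
  d * Real.log (mx F f u) + N * Real.log (nrm f x) - Real.log (f (res F N d u x))

theorem mx_eq (F : ((Fin m → ℤ) × ℕ) →₀ k) (f : AbsoluteValue k ℝ) (u : Fin m → k)
    {μ : Fin m → ℤ} (hμ : μ ∈ expo1 F) (h : ∀ a ∈ expo1 F, f (mono u a) ≤ f (mono u μ)) :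
    mx F f u = f (mono u μ) := by
  unfold mx
  have hne : Nonempty (expo1 F : Set (Fin m → ℤ)) := ⟨⟨μ, hμ⟩⟩
  apply le_antisymm
  · exact ciSup_le fun a => h a.1 a.2
  · have hfin : (Set.range fun a : (expo1 F : Set (Fin m → ℤ)) => f (mono u a.1)).Finite :=
      Set.finite_range _
    exact le_ciSup (f := fun a : (expo1 F : Set (Fin m → ℤ)) => f (mono u a.1))
      hfin.bddAbove ⟨μ, hμ⟩

open Classical in
theorem nf_most (S : Finset (HeightOneSpectrum (𝓞 k))) (hS : 2 ≤ (Sp S).card)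
    (F : ((Fin m → ℤ) × ℕ) →₀ k) {N : ℕ} (d : ℕ) (hN : 1 ≤ N) (hF : ∀ e ∈ F.support, e.2 ≤ N)
    (hF0 : F ≠ 0)
    (hvert : ∀ μ ∈ expo1 F, (∃ θ : Fin m → ℝ, ∀ a ∈ expo1 F, a ≠ μ → dt θ a < dt θ μ) →
      (gpol F 0 μ).natDegree = N ∧ (gpol F 0 μ).Separable) {ε η B : ℝ} (hε : 0 < ε)
    (hη : 0 < η) (hB : 0 ≤ B) :
    ∃ (Z : Finset (Fin (d + 1) → MvPolynomial (Fin m) k)) (C T₀ : ℝ), (∀ P ∈ Z, P ≠ 0) ∧
      ∀ T : ℝ, T₀ ≤ T →
        (((Bx m S T).filter fun u => ∃ x : Fin (d + 1) → k, x ≠ 0 ∧ res F N d u x ≠ 0 ∧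
          logHeight x ≤ B * T ∧ (∀ P ∈ Z, lv P u x ≠ 0) ∧
          (d + 1 + ε) * logHeight x + ε * hs u + C <
            ∑ v ∈ Sp S, wt v * fterm F N d (av v) u x).card : ℝ) ≤
            η * (UF S T).card ^ m := by
  obtain ⟨A, hA⟩ : ∃ A : Finset (Fin m → ℤ), A = expo1 F := ⟨_, rfl⟩
  obtain ⟨𝓜, h𝓜⟩ : ∃ 𝓜 : Finset (Fin m → ℤ), 𝓜 = A.filter fun μ =>
    (gpol F 0 μ).natDegree = N ∧ (gpol F 0 μ).Separable := ⟨_, rfl⟩
  obtain ⟨WW, hWW⟩ : ∃ WW : Finset (Fin m → ℤ), WW =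
    ((A ×ˢ A).filter fun p => p.1 ≠ p.2).image fun p => p.1 - p.2 := ⟨_, rfl⟩
  have hA0 : A.Nonempty := by
    obtain ⟨e, he⟩ := Finsupp.support_nonempty_iff.2 hF0
    rw [hA]
    exact ⟨e.1, Finset.mem_image_of_mem _ he⟩
  obtain ⟨δ, T₁, hδ, hbad⟩ := bad S hS (N := WW) (by
    intro ν hν
    rw [hWW, Finset.mem_image] at hν
    obtain ⟨p, hp, rfl⟩ := hν
    exact sub_ne_zero.2 (Finset.mem_filter.1 hp).2) hη
  have hBm : 0 < B + m + 1 := by positivity
  obtain ⟨Z, C1, C2, hC1, hC2, hZ, hmain⟩ := nf_base (S := S) F d hN hF 𝓜 (by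
    intro μ hμ
    rw [h𝓜, Finset.mem_filter] at hμ
    exact hμ.2) hε (δ := δ / (B + m + 1)) (by positivity)
  refine ⟨Z, C2, max T₁ 1, hZ, fun T hT => le_trans ?_ (hbad T ((le_max_left _ _).trans hT))⟩
  have hT1 : 1 ≤ T := (le_max_right _ _).trans hT
  have hT0 : 0 < T := by linarith
  rw [Nat.cast_le]
  refine Finset.card_le_card fun u hu => ?_
  obtain ⟨huB, x, hx, hres, hxB, hoff, hlt⟩ := Finset.mem_filter.1 hu
  have hU := mem_Bx.1 huB
  have hu0 : ∀ i, u i ≠ 0 := fun i => (hU i).1.1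
  refine Finset.mem_filter.2 ⟨huB, ?_⟩
  by_contra hcon
  push Not at hcon
  have hmaxv : ∀ v : Pl k, ∃ μ ∈ A, ∀ a ∈ A, dt (dir u v) a ≤ dt (dir u v) μ := fun v =>
    Finset.exists_max_image A (fun a => dt (dir u v) a) hA0
  choose μ hμA hμ using hmaxv
  have hgap : ∀ v ∈ Sp S, ∀ a ∈ A, a ≠ μ v → dt (dir u v) a ≤ dt (dir u v) (μ v) - δ * T := by
    intro v hv a ha hne
    have h1 := hcon v hv (a - μ v) (by
      rw [hWW, Finset.mem_image]
      exact ⟨(a, μ v), Finset.mem_filter.2 ⟨Finset.mem_product.2 ⟨ha, hμA v⟩, hne⟩, rfl⟩)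
    rw [dt_sub, abs_of_nonpos (sub_nonpos.2 (hμ v a ha))] at h1
    linarith
  have hc : δ / (B + m + 1) * (hs u + logHeight x) ≤ δ * T := by
    rw [div_mul_eq_mul_div, div_le_iff₀ hBm]
    have h3 : hs u ≤ m * T := by
      unfold hs
      refine (Finset.sum_le_sum fun i _ => (hU i).2).trans ?_
      rw [Finset.sum_const, Finset.card_univ, Fintype.card_fin, nsmul_eq_mul]
    calc δ * (hs u + logHeight x) ≤ δ * ((B + m + 1) * T) :=
          mul_le_mul_of_nonneg_left (by nlinarith) hδ.le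
      _ = δ * T * (B + m + 1) := by ring
  have hvertex : ∀ v ∈ Sp S, μ v ∈ 𝓜 := by
    intro v hv
    rw [h𝓜, Finset.mem_filter]
    refine ⟨hμA v, hvert (μ v) (hA ▸ hμA v) ⟨dir u v, fun a ha hne => ?_⟩⟩
    have h1 := hgap v hv a (hA ▸ ha) hne
    have h2 : 0 < δ * T := mul_pos hδ hT0
    linarith
  have hex : ∀ i, ex (Sp S) (u i) = 0 := fun i =>
    Pool.Agent.N63.MT.ex_unit (Sp S) (hu0 i) fun v hv => by
      rcases v with v | v
      · exact absurd (mem_Sp_inl v) hv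
      · exact (hU i).1.2 v fun h => hv (mem_Sp_inr.2 h)
  have h1 := hmain u x hx hu0 hres hoff (Sp S) μ (Finset.Subset.refl _) (by
    intro v hv
    refine ⟨hvertex v hv, fun e he hne => ?_⟩
    rw [log_av_mono hu0, log_av_mono hu0]
    have h2 := hgap v hv e.1 (hA ▸ Finset.mem_image_of_mem _ he) hne
    linarith)
  have h2 : ∀ v ∈ Sp S, fterm F N d (av v) u x = term F N d (μ v) (av v) u x := by
    intro v hv
    unfold fterm term
    rw [mx_eq F (av v) u (hA ▸ hμA v) (by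
      intro a ha
      have h3 := hμ v a (hA ▸ ha)
      rw [← log_av_mono hu0, ← log_av_mono hu0] at h3
      exact (Real.log_le_log_iff ((av v).pos (mono_ne hu0 _)) ((av v).pos (mono_ne hu0 _))).1 h3)]
  have h3 : ∑ v ∈ Sp S, wt v * fterm F N d (av v) u x =
      ∑ v ∈ Sp S, wt v * term F N d (μ v) (av v) u x :=
    Finset.sum_congr rfl fun v hv => by rw [h2 v hv]
  rw [h3] at hlt
  simp only [hex, Finset.sum_const_zero, mul_zero, add_zero] at h1
  linarith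

end Pool.Agent.Run7.h489.NF
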