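import Mathlib
import Pool.Agent.N262.DR.HtInv
import Pool.Agent.N265.CV.HtcA
import Pool.Agent.Helper259.HtExt
import Pool.Agent.Run7.h489.NF.Most

set_option autoImplicit false
set_option linter.unusedSectionVars false

/-!
Closed points.
-/

namespace Pool.Agent.Run7.h489.NF

open Height NumberField IsDedekindDomain Polynomial
open Pool.Agent.W180.OP (Pl av wt fv nrm wt_nonneg le_nrm exists_nrm nrm_pos)
open Pool.Agent.R404.TC (Sp)
open Pool.Agent.Run7.h489.TM
open Pool.Agent.N63.MT (lv ku ex ex_facts)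

/-- the coefficients of a polynomial -/
def cfs {R : Type} [Semiring R] (d : ℕ) (p : R[X]) : Fin (d + 1) → R := fun i => p.coeff i.1

theorem bin_cfs {R : Type} [CommRing R] {d : ℕ} {p : R[X]} (hp : p.natDegree ≤ d) :
    bin (cfs d p) = p := by
  ext i
  rcases Nat.lt_or_ge i (d + 1) with h | h
  · exact bin_coeff (cfs d p) ⟨i, h⟩
  · rw [bin_coeff_ge _ h, coeff_eq_zero_of_natDegree_lt (by omega)]

section loc

variable {M : Type} [Field M]

/-- the local bound for the zeros -/
theorem roots_le (f : AbsoluteValue M ℝ) (d : ℕ) (s : Multiset M) (hs : s.card ≤ d) {B : ℝ}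
    (hB : ∀ j, f (((s.map fun y => X - C y).prod).coeff j) ≤ B) :
    (s.map fun y => max (f y) 1).prod ≤ (d + 1) ^ s.card * B := by
  induction s using Multiset.induction_on generalizing B with
  | empty =>
    rw [Multiset.map_zero, Multiset.prod_zero, Multiset.card_zero, pow_zero, one_mul]
    have h1 := hB 0
    rw [Multiset.map_zero, Multiset.prod_zero, coeff_one_zero, map_one] at h1
    exact h1
  | cons y s ih =>
    rw [Multiset.card_cons] at hs
    rw [Multiset.map_cons, Multiset.prod_cons] at hB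
    have h1 : ∀ k, max (f y) 1 * f (((s.map fun y => X - C y).prod).coeff k) ≤ (d + 1) * B := by
      refine Pool.Agent.N265.CV.root_arch f y _ d B hB fun k hk => ?_
      exact coeff_eq_zero_of_natDegree_lt (by
        rw [natDegree_multiset_prod_X_sub_C_eq_card]
        omega)
    have hmx : (0 : ℝ) < max (f y) 1 := lt_of_lt_of_le one_pos (le_max_right _ _)
    have h2 := ih (by omega) (B := (d + 1) * B / max (f y) 1) (fun j => by
      rw [le_div_iff₀ hmx, mul_comm]
      exact h1 j)
    rw [Multiset.map_cons, Multiset.prod_cons, Multiset.card_cons]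
    calc max (f y) 1 * (s.map fun y => max (f y) 1).prod ≤
          max (f y) 1 * ((d + 1) ^ s.card * ((d + 1) * B / max (f y) 1)) :=
        mul_le_mul_of_nonneg_left h2 hmx.le
      _ = _ := by
        field_simp
        ring

/-- the resultant and the values at the zeros -/
theorem abs_res (f : AbsoluteValue M ℝ) {F Q : M[X]} {N d : ℕ} (hF : F.natDegree ≤ N)
    (hQm : Q.Monic) (hQ : Q.natDegree = d) (hs : Q.Splits) :
    f (resultant F Q N d) = (Q.roots.map fun y => f (F.eval y)).prod := by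
  rw [resultant_comm, map_mul, map_pow, f.map_neg, map_one, one_pow, one_mul, ← hQ,
    resultant_eq_prod_eval Q F N hF hs, hQm.leadingCoeff, one_pow, one_mul, map_multiset_prod,
    Multiset.map_map]
  rfl

end loc

section ht

variable {M : Type} [Field M] [NumberField M]

theorem logHeight_prod (d : ℕ) (s : Multiset M) (hs : s.card ≤ d) :
    logHeight (cfs d (s.map fun y => X - C y).prod) ≤
      (s.map fun y => logHeight₁ y).sum + s.card * (totalWeight M * Real.log (2 : ℕ)) := by
  induction s using Multiset.induction_on with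
  | empty =>
    rw [Multiset.map_zero, Multiset.prod_zero, Multiset.map_zero, Multiset.sum_zero,
      Multiset.card_zero, Nat.cast_zero, zero_mul, add_zero]
    have h1 : cfs d (1 : M[X]) = Pi.single 0 1 := by
      funext i
      unfold cfs
      rw [coeff_one]
      by_cases hi : i = 0
      · rw [hi, Pi.single_eq_same, Fin.val_zero, if_pos rfl]
      · rw [Pi.single_eq_of_ne hi, if_neg (fun h => hi (Fin.ext (by simpa using h)))]
    have h2 : cfs d (1 : M[X]) ≠ 0 := by
      rw [h1]
      intro h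
      have := congrFun h 0
      rw [Pi.single_eq_same] at this
      exact one_ne_zero this
    have h3 : (fun _ : Fin 1 => (1 : M)) ≠ 0 := fun h => one_ne_zero (congrFun h 0)
    have h4 := Pool.Agent.N265.CV.logHeight_le_of h2 h3 1 le_rfl (by
      intro v
      rw [ciSup_const, map_one, h1]
      refine ciSup_le fun i => ?_
      by_cases hi : i = 0
      · rw [hi, Pi.single_eq_same, map_one]
        simp
      · rw [Pi.single_eq_of_ne hi, map_zero]
        simp) (by
      intro v _
      rw [ciSup_const, map_one, h1]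
      refine ciSup_le fun i => ?_
      by_cases hi : i = 0
      · rw [hi, Pi.single_eq_same, map_one]
      · rw [Pi.single_eq_of_ne hi, map_zero]
        exact zero_le_one)
    have h5 : logHeight (fun _ : Fin 1 => (1 : M)) = 0 :=
      Height.logHeight_eq_zero_of_subsingleton _
    rw [h5, Nat.cast_one, Real.log_one, mul_zero, add_zero] at h4
    exact h4
  | cons y s ih =>
    rw [Multiset.card_cons] at hs
    have ih' := ih (by omega)
    set R := (s.map fun y => X - C y).prod with hR
    have hRm : R.Monic := monic_multiset_prod_of_monic _ _ fun y _ => monic_X_sub_C y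
    have hRd : R.natDegree = s.card := natDegree_multiset_prod_X_sub_C_eq_card s
    rw [Multiset.map_cons, Multiset.prod_cons, Multiset.map_cons, Multiset.sum_cons,
      Multiset.card_cons, ← hR]
    obtain ⟨hc0, hc1⟩ := Pool.Agent.N265.CV.coeff_root y R
    have hx0 : (![y, 1] : Fin 2 → M) ≠ 0 := by
      intro h
      have := congrFun h 1
      simp at this
    have hne1 : cfs d R ≠ 0 := by
      intro h
      have := congrFun h ⟨R.natDegree, by omega⟩
      have h2 : R.coeff R.natDegree = 0 := this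
      rw [hRm.coeff_natDegree] at h2
      exact one_ne_zero h2
    have hne2 : cfs d ((X - C y) * R) ≠ 0 := by
      have hm : ((X - C y) * R).Monic := (monic_X_sub_C y).mul hRm
      have hd : ((X - C y) * R).natDegree = s.card + 1 := by
        rw [(monic_X_sub_C y).natDegree_mul hRm, natDegree_X_sub_C, hRd, add_comm]
      intro h
      have := congrFun h ⟨((X - C y) * R).natDegree, by omega⟩
      have h2 : ((X - C y) * R).coeff ((X - C y) * R).natDegree = 0 := this
      rw [hm.coeff_natDegree] at h2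
      exact one_ne_zero h2
    have hne3 : (fun a : Fin 2 × Fin (d + 1) => (![y, 1] : Fin 2 → M) a.1 * cfs d R a.2) ≠ 0 := by
      intro h
      apply hne1
      funext k
      have := congrFun h (1, k)
      simpa using this
    have hle : ∀ (v : AbsoluteValue M ℝ) (a : Fin 2) (j : ℕ), v ((![y, 1] : Fin 2 → M) a) *
        v (R.coeff j) ≤ ⨆ a : Fin 2 × Fin (d + 1), v ((![y, 1] : Fin 2 → M) a.1 * cfs d R a.2) := by
      intro v a j
      rcases Nat.lt_or_ge j (d + 1) with h | h
      · rw [← map_mul]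
        exact Finite.le_ciSup_of_le ((a, ⟨j, h⟩) : Fin 2 × Fin (d + 1)) le_rfl
      · rw [coeff_eq_zero_of_natDegree_lt (by omega), map_zero, mul_zero]
        exact Real.iSup_nonneg fun i => v.nonneg _
    have hle' : ∀ (v : AbsoluteValue M ℝ) (j : ℕ), v (R.coeff j) ≤
        ⨆ a : Fin 2 × Fin (d + 1), v ((![y, 1] : Fin 2 → M) a.1 * cfs d R a.2) := by
      intro v j
      have := hle v 1 j
      simpa using this
    have hle'' : ∀ (v : AbsoluteValue M ℝ) (j : ℕ), v y * v (R.coeff j) ≤
        ⨆ a : Fin 2 × Fin (d + 1), v ((![y, 1] : Fin 2 → M) a.1 * cfs d R a.2) := by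
      intro v j
      have := hle v 0 j
      simpa using this
    have h1 := Pool.Agent.N265.CV.logHeight_le_of hne2 hne3 2 (by norm_num) (by
      intro v
      have hsn : 0 ≤ ⨆ a : Fin 2 × Fin (d + 1), v ((![y, 1] : Fin 2 → M) a.1 * cfs d R a.2) :=
        Real.iSup_nonneg fun i => v.nonneg _
      refine ciSup_le fun i => ?_
      unfold cfs at hsn ⊢
      rcases i with ⟨j, hj⟩
      rcases j with _ | j
      · show v (((X - C y) * R).coeff 0) ≤ _
        rw [hc0, v.map_neg, map_mul]
        have := hle'' v 0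
        unfold cfs at this
        push_cast
        linarith
      · show v (((X - C y) * R).coeff (j + 1)) ≤ _
        rw [hc1]
        refine (v.sub_le_add _ _).trans ?_
        rw [map_mul]
        have h2 := hle' v j
        have h3 := hle'' v (j + 1)
        unfold cfs at h2 h3
        push_cast
        linarith) (by
      intro v hv
      refine ciSup_le fun i => ?_
      unfold cfs
      rcases i with ⟨j, hj⟩
      rcases j with _ | j
      · show v (((X - C y) * R).coeff 0) ≤ _
        rw [hc0, v.map_neg, map_mul]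
        exact hle'' v 0
      · show v (((X - C y) * R).coeff (j + 1)) ≤ _
        rw [hc1, sub_eq_add_neg]
        refine (hv _ _).trans (max_le (hle' v j) ?_)
        rw [v.map_neg, map_mul]
        exact hle'' v (j + 1))
    have h2 := logHeight_fun_mul_eq hx0 hne1
    rw [h2, ← logHeight₁_eq_logHeight] at h1
    push_cast at h1 ih' ⊢
    linarith

end ht

section clo

variable {k M : Type} [Field k] [NumberField k] [Field M] [NumberField M] [Algebra k M]
  {S : Finset (HeightOneSpectrum (𝓞 k))} {m : ℕ}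

theorem sum_log {α : Type} (s : Multiset α) (g : α → ℝ) (hg : ∀ y ∈ s, g y ≠ 0) :
    (s.map fun y => Real.log (g y)).sum = Real.log (s.map g).prod := by
  induction s using Multiset.induction_on with
  | empty => simp
  | cons y s ih =>
    have h1 : (s.map g).prod ≠ 0 := by
      intro h
      obtain ⟨z, hz, hz'⟩ := Multiset.mem_map.1 (Multiset.prod_eq_zero_iff.1 h)
      exact hg z (Multiset.mem_cons_of_mem hz) hz'
    rw [Multiset.map_cons, Multiset.sum_cons, Multiset.map_cons, Multiset.prod_cons,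
      Real.log_mul (hg y (Multiset.mem_cons_self _ _)) h1,
      ih fun z hz => hg z (Multiset.mem_cons_of_mem hz)]

/-- the local term of a closed point -/
noncomputable def cterm (f : AbsoluteValue M ℝ) (p : k[X]) (N : ℕ) (z : M) : ℝ :=
  (((minpoly k z).aroots M).map fun y =>
    N * Real.log (max 1 (f y)) - Real.log (f (aeval y p))).sum

theorem conj_of [IsGalois k M] {z y : M} (hy : y ∈ (minpoly k z).aroots M) :
    ∃ σ : M ≃ₐ[k] M, σ z = y := by
  have hint : IsIntegral k z := Algebra.IsIntegral.isIntegral z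
  have h1 : aeval y (minpoly k z) = 0 := (mem_aroots.1 hy).2
  have h2 : IsConjRoot k z y := isConjRoot_of_aeval_eq_zero hint h1
  exact h2.symm.exists_algEquiv

theorem conj_card [IsGalois k M] (z : M) :
    Multiset.card ((minpoly k z).aroots M) = (minpoly k z).natDegree := by
  have hs : ((minpoly k z).map (algebraMap k M)).Splits := Normal.splits inferInstance z
  rw [aroots_def, ← hs.natDegree_eq_card_roots, natDegree_map]

theorem conj_prod [IsGalois k M] (z : M) : (minpoly k z).map (algebraMap k M) =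
    (((minpoly k z).aroots M).map fun y => X - C y).prod := by
  have hs : ((minpoly k z).map (algebraMap k M)).Splits := Normal.splits inferInstance z
  have hm : ((minpoly k z).map (algebraMap k M)).Monic :=
    (minpoly.monic (Algebra.IsIntegral.isIntegral z)).map _
  exact hs.eq_prod_roots_of_monic hm

theorem cterm_le [IsGalois k M] (f : AbsoluteValue M ℝ) (g : AbsoluteValue k ℝ)
    (hfg : ∀ y : k, f (algebraMap k M y) = g y) {p : k[X]} {N d : ℕ} (hp : p.natDegree ≤ N)
    {z : M} (hd : (minpoly k z).natDegree = d) (hz : aeval z p ≠ 0) :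
    resultant p (bin (cfs d (minpoly k z))) N d ≠ 0 ∧
    cterm f p N z ≤ N * (d * Real.log (d + 1)) + N * Real.log (nrm g (cfs d (minpoly k z))) -
      Real.log (g (resultant p (bin (cfs d (minpoly k z))) N d)) := by
  obtain ⟨Q, hQ⟩ : ∃ Q : k[X], Q = minpoly k z := ⟨_, rfl⟩
  have hQm : Q.Monic := by
    rw [hQ]
    exact minpoly.monic (Algebra.IsIntegral.isIntegral z)
  have hs : (Q.map (algebraMap k M)).Splits := by
    rw [hQ]
    exact Normal.splits inferInstance z
  have hcard : Multiset.card (Q.aroots M) = d := by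
    rw [hQ, conj_card, hd]
  have hprod : Q.map (algebraMap k M) = ((Q.aroots M).map fun y => X - C y).prod := by
    rw [hQ]
    exact conj_prod z
  have hne : ∀ y ∈ Q.aroots M, aeval y p ≠ 0 := by
    intro y hy
    rw [hQ] at hy
    obtain ⟨σ, rfl⟩ := conj_of hy
    rw [aeval_algEquiv]
    show σ (aeval z p) ≠ 0
    exact (_root_.map_ne_zero σ).2 hz
  have hdQ : Q.natDegree ≤ d := by rw [hQ, hd]
  have hres : g (resultant p (bin (cfs d Q)) N d) = ((Q.aroots M).map fun y => f (aeval y p)).prod := by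
    rw [bin_cfs hdQ, ← hfg, ← resultant_map_map,
      abs_res f (natDegree_map_le.trans hp) (hQm.map _) (by rw [natDegree_map, hQ, hd]) hs]
    simp only [eval_map_algebraMap]
  have hprodpos : ((Q.aroots M).map fun y => f (aeval y p)).prod ≠ 0 := by
    intro h
    obtain ⟨y, hy, hy'⟩ := Multiset.mem_map.1 (Multiset.prod_eq_zero_iff.1 h)
    exact (f.pos (hne y hy)).ne' hy'
  rw [← hQ]
  refine ⟨fun h => ?_, ?_⟩
  · rw [h, map_zero] at hres
    exact hprodpos hres.symm
  unfold cterm
  rw [← hQ, hres, Multiset.sum_map_sub, Multiset.sum_map_mul_left,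
    sum_log _ _ (fun y hy => (f.pos (hne y hy)).ne'),
    sum_log _ _ (fun y _ => (lt_of_lt_of_le one_pos (le_max_left _ _)).ne')]
  have hnpos : 0 < nrm g (cfs d Q) := by
    refine nrm_pos g fun h => ?_
    have h1 := congrFun h ⟨d, by omega⟩
    have h2 : Q.coeff d = 0 := h1
    have h3 : Q.coeff d = 1 := by
      have := hQm.coeff_natDegree
      rw [hQ, hd] at this
      rw [hQ]
      exact this
    rw [h3] at h2
    exact one_ne_zero h2
  have h1 := roots_le f d (Q.aroots M) hcard.le (B := nrm g (cfs d Q)) (by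
    intro j
    rw [← hprod, coeff_map, hfg]
    rcases Nat.lt_or_ge j (d + 1) with h | h
    · exact le_nrm g (cfs d Q) ⟨j, h⟩
    · rw [coeff_eq_zero_of_natDegree_lt (by omega), map_zero]
      exact hnpos.le)
  rw [hcard] at h1
  have h2 : ((Q.aroots M).map fun y => max 1 (f y)).prod =
      ((Q.aroots M).map fun y => max (f y) 1).prod := by
    congr 1
    exact Multiset.map_congr rfl fun y _ => max_comm _ _
  rw [h2]
  have h3 : 0 < ((Q.aroots M).map fun y => max (f y) 1).prod := by
    rw [← h2]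
    refine Multiset.prod_pos fun y hy => ?_
    obtain ⟨x, -, rfl⟩ := Multiset.mem_map.1 hy
    exact lt_of_lt_of_le one_pos (le_max_left _ _)
  have h4 := Real.log_le_log h3 h1
  rw [Real.log_mul (by positivity) hnpos.ne', Real.log_pow] at h4
  have h5 := mul_le_mul_of_nonneg_left h4 (Nat.cast_nonneg (α := ℝ) N)
  linarith

theorem clo_ht [IsGalois k M] {z : M} {d : ℕ} (hd : (minpoly k z).natDegree = d) :
    logHeight (cfs d (minpoly k z)) ≤ d * (logHeight₁ z / Module.finrank k M) +
      d * (Module.finrank ℚ k * Real.log 2) := by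
  have hfd : FiniteDimensional k M := FiniteDimensional.right ℚ k M
  have hpos : (0 : ℝ) < Module.finrank k M := by exact_mod_cast Module.finrank_pos (R := k) (M := M)
  have h1 := Pool.Agent.Helper259.HtExt.logHeight_ext (K := k) (L := M) (cfs d (minpoly k z))
  have h2 : (fun i => algebraMap k M (cfs d (minpoly k z) i)) =
      cfs d (((minpoly k z).aroots M).map fun y => X - C y).prod := by
    funext i
    unfold cfs
    rw [← coeff_map, conj_prod z]
  rw [h2] at h1
  have h3 := logHeight_prod (M := M) d ((minpoly k z).aroots M) (by rw [conj_card, hd])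
  rw [conj_card, hd, h1] at h3
  have h4 : (((minpoly k z).aroots M).map fun y => logHeight₁ y).sum = d * logHeight₁ z := by
    have h5 : ((minpoly k z).aroots M).map (fun y => logHeight₁ y) =
        ((minpoly k z).aroots M).map (fun _ => logHeight₁ z) := by
      refine Multiset.map_congr rfl fun y hy => ?_
      obtain ⟨σ, rfl⟩ := conj_of hy
      exact Pool.Agent.N262.DR.ht_hom (σ : M →+* M) rfl z
    rw [h5, Multiset.map_const', Multiset.sum_replicate, conj_card, hd, nsmul_eq_mul]
  rw [h4, NumberField.totalWeight_eq_finrank] at h3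
  have h6 : (Module.finrank ℚ M : ℝ) = Module.finrank ℚ k * Module.finrank k M := by
    exact_mod_cast (Module.finrank_mul_finrank ℚ k M).symm
  rw [h6] at h3
  have h7 : logHeight (cfs d (minpoly k z)) = (Module.finrank k M *
      logHeight (cfs d (minpoly k z))) / Module.finrank k M := by
    field_simp
  rw [h7, div_le_iff₀ hpos]
  refine h3.trans (le_of_eq ?_)
  push_cast
  field_simp

/-- the term of a closed point -/
theorem clo_term [IsGalois k M] (F : ((Fin m → ℤ) × ℕ) →₀ k) {N d : ℕ} (hF : ∀ e ∈ F.support, e.2 ≤ N)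
    (μ : Fin m → ℤ) (f : AbsoluteValue M ℝ) (g : AbsoluteValue k ℝ)
    (hfg : ∀ y : k, f (algebraMap k M y) = g y) (u : Fin m → k)
    {z : M} (hd : (minpoly k z).natDegree = d) (hz : aeval z (pol F 0 0 u) ≠ 0) :
    res F N d u (cfs d (minpoly k z)) ≠ 0 ∧
    d * Real.log (g (mono u μ)) + cterm f (pol F 0 0 u) N z ≤
      term F N d μ g u (cfs d (minpoly k z)) + N * (d * Real.log (d + 1)) := by
  obtain ⟨h1, h2⟩ := cterm_le f g hfg (natDegree_pol hF 0 0 u) hd hz
  refine ⟨h1, ?_⟩
  unfold term res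
  linarith

theorem clo_base (F : ((Fin m → ℤ) × ℕ) →₀ k)
    {N : ℕ} {d : ℕ} (hN : 1 ≤ N) (hd : 1 ≤ d) (hF : ∀ e ∈ F.support, e.2 ≤ N)
    (𝓜 : Finset (Fin m → ℤ))
    (hgood : ∀ μ ∈ 𝓜, (gpol F 0 μ).natDegree = N ∧ (gpol F 0 μ).Separable)
    {ε δ : ℝ} (hε : 0 < ε) (hδ : 0 < δ) :
    ∃ (Z : Finset (Fin (d + 1) → MvPolynomial (Fin m) k)) (C1 C2 : ℝ), 0 ≤ C1 ∧ 0 ≤ C2 ∧
      (∀ P ∈ Z, P ≠ 0) ∧ ∀ (M : Type) [Field M] [NumberField M] [Algebra k M] [IsGalois k M]
        (w : Pl k → AbsoluteValue M ℝ), (∀ v ∈ Sp S, ∀ y : k, w v (algebraMap k M y) = av v y) →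
        ∀ (u : Fin m → k) (z : M), (minpoly k z).natDegree = d → (∀ i, u i ≠ 0) →
        aeval z (pol F 0 0 u) ≠ 0 → (∀ P ∈ Z, lv P u (cfs d (minpoly k z)) ≠ 0) →
        ∀ (T : Finset (Pl k)) (μ : Pl k → Fin m → ℤ), T ⊆ Sp S →
          (∀ v ∈ T, μ v ∈ 𝓜 ∧ ∀ e ∈ F.support, e.1 ≠ μ v → Real.log (av v (mono u e.1)) ≤
            Real.log (av v (mono u (μ v))) -
              δ * (1 + (hs u + logHeight₁ z / Module.finrank k M))) →
          ∑ v ∈ T, wt v * (Real.log (av v (mono u (μ v))) + cterm (w v) (pol F 0 0 u) N z / d) ≤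
            (d + 1 + ε) * (logHeight₁ z / Module.finrank k M) + ε * hs u +
              C1 * ∑ i, ex (Sp S) (u i) + C2 := by
  obtain ⟨c, hc⟩ : ∃ c : ℝ, c = d * (Module.finrank ℚ k * Real.log 2) := ⟨_, rfl⟩
  have hc0 : 0 ≤ c := by
    rw [hc]
    have := Real.log_nonneg (one_le_two)
    positivity
  have hd0 : (1 : ℝ) ≤ d := by exact_mod_cast hd
  obtain ⟨Z, C1, C2, hC1, hC2, hZ, hmain⟩ := nf_base (S := S) F d hN hF 𝓜 hgood hε
    (δ := δ / (d + c)) (by positivity)
  obtain ⟨W, hW⟩ : ∃ W : ℝ, W = wS S := ⟨_, rfl⟩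
  have hwS : 0 ≤ W := by rw [hW]; exact wS_nonneg S
  obtain ⟨e, he⟩ : ∃ e : ℝ, e = N * (d * Real.log (d + 1)) := ⟨_, rfl⟩
  have he0 : 0 ≤ e := by
    rw [he]
    have : 0 ≤ Real.log ((d : ℝ) + 1) := Real.log_nonneg (by linarith)
    positivity
  refine ⟨Z, C1, C2 + (d + 1 + ε) * c + e * W, hC1, by positivity, hZ, ?_⟩
  intro M _ _ _ _ w hw u z hdz hu hz hoff T μ hT hnear
  obtain ⟨h, hh⟩ : ∃ h : ℝ, h = logHeight₁ z / Module.finrank k M := ⟨_, rfl⟩
  rw [← hh] at hnear ⊢
  have hfd : FiniteDimensional k M := FiniteDimensional.right ℚ k M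
  have hpos : (0 : ℝ) < Module.finrank k M := by exact_mod_cast Module.finrank_pos (R := k) (M := M)
  have hh0 : 0 ≤ h := by
    rw [hh]
    exact div_nonneg (zero_le_logHeight₁ z) hpos.le
  have hhx := clo_ht (k := k) hdz
  rw [← hh, ← hc] at hhx
  obtain ⟨x, hx⟩ : ∃ x : Fin (d + 1) → k, x = cfs d (minpoly k z) := ⟨_, rfl⟩
  rw [← hx] at hhx
  have hu1 : 0 ≤ hs u := hs_nonneg u
  have hx1 : 0 ≤ logHeight x := logHeight_nonneg _
  have hex : 0 ≤ ∑ i, ex (Sp S) (u i) := Finset.sum_nonneg fun i _ => (ex_facts _ (hu i)).2.2.1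
  have hdpos : (0 : ℝ) < d := by linarith
  -- the facts on the term
  have hterm : ∀ v ∈ Sp S, res F N d u x ≠ 0 ∧ d * Real.log (av v (mono u (μ v))) +
      cterm (w v) (pol F 0 0 u) N z ≤ term F N d (μ v) (av v) u x + e := by
    intro v hv
    rw [hx, he]
    exact clo_term F hF (μ v) (w v) (av v) (hw v hv) u hdz hz
  have hx0 : x ≠ 0 := by
    intro h0
    have h1 := congrFun h0 ⟨d, by omega⟩
    rw [hx] at h1
    have h2 : (minpoly k z).coeff d = 0 := h1
    have h3 := (minpoly.monic (Algebra.IsIntegral.isIntegral (R := k) z)).coeff_natDegree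
    rw [hdz, h2] at h3
    exact zero_ne_one h3
  rcases T.eq_empty_or_nonempty with hTe | ⟨v0, hv0⟩
  · rw [hTe, Finset.sum_empty]
    positivity
  have hres := (hterm v0 (hT hv0)).1
  have h1 := hmain u x hx0 hu hres (by rw [hx]; exact hoff) T μ hT (by
    intro v hv
    refine ⟨(hnear v hv).1, fun a ha hne => ?_⟩
    have h2 := (hnear v hv).2 a ha hne
    have h3 : δ / (d + c) * (hs u + logHeight x) ≤ δ * (1 + (hs u + h)) := by
      rw [div_mul_eq_mul_div, div_le_iff₀ (by positivity)]
      have h4 : hs u + logHeight x ≤ (1 + (hs u + h)) * (d + c) := by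
        nlinarith [mul_nonneg hu1 hc0, mul_nonneg hh0 hc0, mul_nonneg hu1 (sub_nonneg.2 hd0)]
      calc δ * (hs u + logHeight x) ≤ δ * ((1 + (hs u + h)) * (d + c)) :=
            mul_le_mul_of_nonneg_left h4 hδ.le
        _ = _ := by ring
    linarith)
  have h2 : d * ∑ v ∈ T, wt v * (Real.log (av v (mono u (μ v))) +
      cterm (w v) (pol F 0 0 u) N z / d) ≤
      ∑ v ∈ T, wt v * term F N d (μ v) (av v) u x + e * W := by
    rw [Finset.mul_sum]
    have h3 : ∑ v ∈ T, wt v * e ≤ e * W := by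
      rw [hW, ← Finset.sum_mul, mul_comm]
      unfold wS
      exact mul_le_mul_of_nonneg_left (Finset.sum_le_sum_of_subset_of_nonneg hT
        fun v _ _ => wt_nonneg v) he0
    have h4 : ∑ v ∈ T, d * (wt v * (Real.log (av v (mono u (μ v))) +
        cterm (w v) (pol F 0 0 u) N z / d)) ≤
        ∑ v ∈ T, (wt v * term F N d (μ v) (av v) u x + wt v * e) := by
      refine Finset.sum_le_sum fun v hv => ?_
      have h5 := mul_le_mul_of_nonneg_left (hterm v (hT hv)).2 (wt_nonneg v)
      have h6 : d * (wt v * (Real.log (av v (mono u (μ v))) +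
          cterm (w v) (pol F 0 0 u) N z / d)) = wt v * (d * Real.log (av v (mono u (μ v))) +
          cterm (w v) (pol F 0 0 u) N z) := by
        field_simp
      rw [h6]
      linarith
    rw [Finset.sum_add_distrib] at h4
    linarith
  obtain ⟨Sg, hSg⟩ : ∃ Sg : ℝ, Sg = ∑ v ∈ T, wt v * (Real.log (av v (mono u (μ v))) +
      cterm (w v) (pol F 0 0 u) N z / d) := ⟨_, rfl⟩
  rw [← hSg] at h2 ⊢
  obtain ⟨B, hB⟩ : ∃ B : ℝ, B = (d + 1 + ε) * h + ε * hs u +
      C1 * ∑ i, ex (Sp S) (u i) + (C2 + (d + 1 + ε) * c + e * W) := ⟨_, rfl⟩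
  rw [← hB]
  have h5 : (d + 1 + ε) * logHeight x ≤ (d + 1 + ε) * (d * h + c) :=
    mul_le_mul_of_nonneg_left hhx (by positivity)
  have h6 : 0 ≤ ε * hs u + C1 * ∑ i, ex (Sp S) (u i) + (C2 + (d + 1 + ε) * c + e * W) := by
    positivity
  have h7 : d * Sg ≤ d * B := by
    have h8 : ε * hs u + C1 * ∑ i, ex (Sp S) (u i) + (C2 + (d + 1 + ε) * c + e * W) ≤
        d * (ε * hs u + C1 * ∑ i, ex (Sp S) (u i) + (C2 + (d + 1 + ε) * c + e * W)) :=
      le_mul_of_one_le_left h6 hd0
    have h9 : d * B = (d + 1 + ε) * (d * h) +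
        d * (ε * hs u + C1 * ∑ i, ex (Sp S) (u i) + (C2 + (d + 1 + ε) * c + e * W)) := by
      rw [hB]
      ring
    rw [h9]
    linarith
  exact le_of_mul_le_mul_left h7 hdpos

open Classical in
theorem clo_most (S : Finset (HeightOneSpectrum (𝓞 k))) (hS : 2 ≤ (Sp S).card)
    (F : ((Fin m → ℤ) × ℕ) →₀ k) {N d : ℕ} (hN : 1 ≤ N) (hd : 1 ≤ d)
    (hF : ∀ e ∈ F.support, e.2 ≤ N) (hF0 : F ≠ 0)
    (hvert : ∀ μ ∈ expo1 F, (∃ θ : Fin m → ℝ, ∀ a ∈ expo1 F, a ≠ μ → dt θ a < dt θ μ) →
      (gpol F 0 μ).natDegree = N ∧ (gpol F 0 μ).Separable) {ε η B : ℝ} (hε : 0 < ε)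
    (hη : 0 < η) (hB : 0 ≤ B) :
    ∃ (Z : Finset (Fin (d + 1) → MvPolynomial (Fin m) k)) (C T₀ : ℝ), (∀ P ∈ Z, P ≠ 0) ∧
      ∀ T : ℝ, T₀ ≤ T →
        (((Bx m S T).filter fun u => ∃ (M : Type) (_ : Field M) (_ : NumberField M)
          (_ : Algebra k M) (_ : IsGalois k M) (w : Pl k → AbsoluteValue M ℝ) (z : M),
          (∀ v ∈ Sp S, ∀ y : k, w v (algebraMap k M y) = av v y) ∧
          (minpoly k z).natDegree = d ∧ aeval z (pol F 0 0 u) ≠ 0 ∧
          logHeight₁ z / Module.finrank k M ≤ B * T ∧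
          (∀ P ∈ Z, lv P u (cfs d (minpoly k z)) ≠ 0) ∧
          (d + 1 + ε) * (logHeight₁ z / Module.finrank k M) + ε * hs u + C <
            ∑ v ∈ Sp S, wt v * (Real.log (mx F (av v) u) +
              cterm (w v) (pol F 0 0 u) N z / d)).card : ℝ) ≤
            η * (UF S T).card ^ m := by
  obtain ⟨c, hc⟩ : ∃ c : ℝ, c = d * (Module.finrank ℚ k * Real.log 2) := ⟨_, rfl⟩
  have hc0 : 0 ≤ c := by
    rw [hc]
    have := Real.log_nonneg (one_le_two)
    positivity
  have hd0 : (1 : ℝ) ≤ d := by exact_mod_cast hd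
  obtain ⟨Z, C', T₁, hZ, hmain⟩ := nf_most S hS F d hN hF hF0 hvert hε hη
    (B := d * B + c) (by positivity)
  obtain ⟨W, hW⟩ : ∃ W : ℝ, W = wS S := ⟨_, rfl⟩
  have hwS : 0 ≤ W := by rw [hW]; exact wS_nonneg S
  obtain ⟨e, he⟩ : ∃ e : ℝ, e = N * (d * Real.log (d + 1)) := ⟨_, rfl⟩
  have he0 : 0 ≤ e := by
    rw [he]
    have : 0 ≤ Real.log ((d : ℝ) + 1) := Real.log_nonneg (by linarith)
    positivity
  refine ⟨Z, |C'| + (d + 1 + ε) * c + e * W, max T₁ 1, hZ, fun T hT => le_trans ?_
    (hmain T ((le_max_left _ _).trans hT))⟩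
  have hT1 : 1 ≤ T := (le_max_right _ _).trans hT
  rw [Nat.cast_le]
  refine Finset.card_le_card fun u hu => ?_
  obtain ⟨huB, M, _, _, _, _, w, z, hw, hdz, hz, hhB, hoff, hlt⟩ := Finset.mem_filter.1 hu
  refine Finset.mem_filter.2 ⟨huB, ?_⟩
  obtain ⟨h, hh⟩ : ∃ h : ℝ, h = logHeight₁ z / Module.finrank k M := ⟨_, rfl⟩
  rw [← hh] at hlt hhB
  have hfd : FiniteDimensional k M := FiniteDimensional.right ℚ k M
  have hpos : (0 : ℝ) < Module.finrank k M := by exact_mod_cast Module.finrank_pos (R := k) (M := M)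
  have hh0 : 0 ≤ h := by
    rw [hh]
    exact div_nonneg (zero_le_logHeight₁ z) hpos.le
  have hhx := clo_ht (k := k) hdz
  rw [← hh, ← hc] at hhx
  obtain ⟨x, hx⟩ : ∃ x : Fin (d + 1) → k, x = cfs d (minpoly k z) := ⟨_, rfl⟩
  rw [← hx] at hhx
  have hu1 : 0 ≤ hs u := hs_nonneg u
  have hdpos : (0 : ℝ) < d := by linarith
  have hterm : ∀ v ∈ Sp S, res F N d u x ≠ 0 ∧ d * Real.log (mx F (av v) u) +
      cterm (w v) (pol F 0 0 u) N z ≤ fterm F N d (av v) u x + e := by
    intro v hv
    obtain ⟨h1, h2⟩ := cterm_le (w v) (av v) (hw v hv) (natDegree_pol hF 0 0 u) hdz hz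
    rw [hx, he]
    refine ⟨h1, ?_⟩
    unfold fterm res
    linarith
  have hx0 : x ≠ 0 := by
    intro h0
    have h1 := congrFun h0 ⟨d, by omega⟩
    rw [hx] at h1
    have h2 : (minpoly k z).coeff d = 0 := h1
    have h3 := (minpoly.monic (Algebra.IsIntegral.isIntegral (R := k) z)).coeff_natDegree
    rw [hdz, h2] at h3
    exact zero_ne_one h3
  have hSne : (Sp S).Nonempty := Finset.card_pos.1 (by omega)
  obtain ⟨v0, hv0⟩ := hSne
  refine ⟨x, hx0, (hterm v0 hv0).1, ?_, by rw [hx]; exact hoff, ?_⟩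
  · have h1 : d * h ≤ d * (B * T) := mul_le_mul_of_nonneg_left hhB hdpos.le
    have h2 : c ≤ c * T := le_mul_of_one_le_right hc0 hT1
    calc logHeight x ≤ d * h + c := hhx
      _ ≤ d * (B * T) + c * T := add_le_add h1 h2
      _ = _ := by ring
  by_contra hcon
  push Not at hcon
  have h2 : d * ∑ v ∈ Sp S, wt v * (Real.log (mx F (av v) u) +
      cterm (w v) (pol F 0 0 u) N z / d) ≤
      ∑ v ∈ Sp S, wt v * fterm F N d (av v) u x + e * W := by
    rw [Finset.mul_sum]
    have h3 : ∑ v ∈ Sp S, wt v * e ≤ e * W := by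
      rw [hW, ← Finset.sum_mul, mul_comm]
      exact le_of_eq rfl
    have h4 : ∑ v ∈ Sp S, d * (wt v * (Real.log (mx F (av v) u) +
        cterm (w v) (pol F 0 0 u) N z / d)) ≤
        ∑ v ∈ Sp S, (wt v * fterm F N d (av v) u x + wt v * e) := by
      refine Finset.sum_le_sum fun v hv => ?_
      have h5 := mul_le_mul_of_nonneg_left (hterm v hv).2 (wt_nonneg v)
      have h6 : d * (wt v * (Real.log (mx F (av v) u) +
          cterm (w v) (pol F 0 0 u) N z / d)) = wt v * (d * Real.log (mx F (av v) u) +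
          cterm (w v) (pol F 0 0 u) N z) := by
        field_simp
      rw [h6]
      linarith
    rw [Finset.sum_add_distrib] at h4
    linarith
  obtain ⟨Sg, hSg⟩ : ∃ Sg : ℝ, Sg = ∑ v ∈ Sp S, wt v * (Real.log (mx F (av v) u) +
      cterm (w v) (pol F 0 0 u) N z / d) := ⟨_, rfl⟩
  rw [← hSg] at h2 hlt
  have h5 : (d + 1 + ε) * logHeight x ≤ (d + 1 + ε) * (d * h + c) :=
    mul_le_mul_of_nonneg_left hhx (by positivity)
  have h6 : 0 ≤ ε * hs u + (|C'| + (d + 1 + ε) * c + e * W) := by
    have := abs_nonneg C'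
    positivity
  have h8 : ε * hs u + (|C'| + (d + 1 + ε) * c + e * W) ≤
      d * (ε * hs u + (|C'| + (d + 1 + ε) * c + e * W)) :=
    le_mul_of_one_le_left h6 hd0
  have h9 : d * ((d + 1 + ε) * h + ε * hs u + (|C'| + (d + 1 + ε) * c + e * W)) =
      (d + 1 + ε) * (d * h) + d * (ε * hs u + (|C'| + (d + 1 + ε) * c + e * W)) := by
    ring
  have h10 := le_abs_self C'
  have h11 := mul_lt_mul_of_pos_left hlt hdpos
  linarith

end clo

end Pool.Agent.Run7.h489.NF
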