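import Mathlib
import Pool.Agent.Run7.h489.NF.Most

set_option autoImplicit false
set_option linter.unusedSectionVars false

/-!
Polynomials in `Y` with coefficients in `K[u]`.
-/

namespace Pool.Agent.Run7.h489.NF

open Polynomial
open Pool.Agent.Run7.h489.TM

section

variable {K : Type} [Field K] {m : ℕ}

/-- the exponent as a vector of integers -/
def cst (a : Fin m →₀ ℕ) : Fin m → ℤ := fun i => (a i : ℤ)

theorem cst_inj : Function.Injective (cst (m := m)) := by
  intro a b h
  ext i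
  have h1 : (a i : ℤ) = b i := congrFun h i
  exact_mod_cast h1

/-- the monomial `u^a` -/
def mnl (u : Fin m → K) (a : Fin m →₀ ℕ) : K := ∏ i, u i ^ a i

theorem mono_cst (u : Fin m → K) (a : Fin m →₀ ℕ) : mono u (cst a) = mnl u a := by
  unfold mono mnl cst
  exact Finset.prod_congr rfl fun i _ => zpow_natCast _ _

open Classical in
/-- the exponents -/
noncomputable def exps (F : (MvPolynomial (Fin m) K)[X]) : Finset (Fin m →₀ ℕ) :=
  F.support.biUnion fun j => (F.coeff j).support

/-- the coefficient of `u^a` -/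
noncomputable def prt (F : (MvPolynomial (Fin m) K)[X]) (a : Fin m →₀ ℕ) : K[X] :=
  ∑ j ∈ F.support, monomial j ((F.coeff j).coeff a)

theorem mem_exps {F : (MvPolynomial (Fin m) K)[X]} {a : Fin m →₀ ℕ} :
    a ∈ exps F ↔ ∃ j, (F.coeff j).coeff a ≠ 0 := by
  unfold exps
  rw [Finset.mem_biUnion]
  constructor
  · rintro ⟨j, -, hj⟩
    exact ⟨j, MvPolynomial.mem_support_iff.1 hj⟩
  · rintro ⟨j, hj⟩
    refine ⟨j, ?_, MvPolynomial.mem_support_iff.2 hj⟩
    rw [Polynomial.mem_support_iff]
    intro h0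
    rw [h0, MvPolynomial.coeff_zero] at hj
    exact hj rfl

theorem coeff_prt (F : (MvPolynomial (Fin m) K)[X]) (a : Fin m →₀ ℕ) (j : ℕ) :
    (prt F a).coeff j = (F.coeff j).coeff a := by
  unfold prt
  rw [finsetSum_coeff]
  simp only [coeff_monomial]
  rw [Finset.sum_ite_eq' F.support j fun i => (F.coeff i).coeff a]
  by_cases h : j ∈ F.support
  · rw [if_pos h]
  · rw [if_neg h]
    rw [Polynomial.notMem_support_iff.1 h, MvPolynomial.coeff_zero]

/-- the family of the coefficients -/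
noncomputable def toG (F : (MvPolynomial (Fin m) K)[X]) : ((Fin m → ℤ) × ℕ) →₀ K :=
  ∑ j ∈ F.support, ∑ a ∈ (F.coeff j).support, Finsupp.single (cst a, j) ((F.coeff j).coeff a)

theorem toG_apply (F : (MvPolynomial (Fin m) K)[X]) (a : Fin m →₀ ℕ) (j : ℕ) :
    toG F (cst a, j) = (F.coeff j).coeff a := by
  classical
  unfold toG
  simp only [Finsupp.coe_finsetSum, Finset.sum_apply]
  have h1 : ∀ j' ∈ F.support, ∑ a' ∈ (F.coeff j').support,
      (Finsupp.single (cst a', j') ((F.coeff j').coeff a') : ((Fin m → ℤ) × ℕ) →₀ K) (cst a, j) =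
      if j' = j then (F.coeff j').coeff a else 0 := by
    intro j' _
    by_cases hj : j' = j
    · rw [if_pos hj, hj]
      have h2 : ∀ a' ∈ (F.coeff j).support,
          (Finsupp.single (cst a', j) ((F.coeff j).coeff a') : ((Fin m → ℤ) × ℕ) →₀ K) (cst a, j) =
          if a' = a then (F.coeff j).coeff a' else 0 := by
        intro a' _
        rw [Finsupp.single_apply]
        by_cases ha : a' = a
        · rw [if_pos ha, if_pos (by rw [ha])]
        · rw [if_neg ha, if_neg (fun h => ha (cst_inj (congrArg Prod.fst h)))]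
      rw [Finset.sum_congr rfl h2, Finset.sum_ite_eq' (F.coeff j).support a fun a' =>
        (F.coeff j).coeff a']
      by_cases h : a ∈ (F.coeff j).support
      · rw [if_pos h]
      · rw [if_neg h, MvPolynomial.notMem_support_iff.1 h]
    · rw [if_neg hj]
      refine Finset.sum_eq_zero fun a' _ => ?_
      rw [Finsupp.single_apply, if_neg (fun h => hj (congrArg Prod.snd h))]
  rw [Finset.sum_congr rfl h1, Finset.sum_ite_eq' F.support j fun j' => (F.coeff j').coeff a]
  by_cases h : j ∈ F.support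
  · rw [if_pos h]
  · rw [if_neg h, Polynomial.notMem_support_iff.1 h, MvPolynomial.coeff_zero]

theorem toG_supp {F : (MvPolynomial (Fin m) K)[X]} {e : (Fin m → ℤ) × ℕ}
    (he : e ∈ (toG F).support) : ∃ a, e = (cst a, e.2) ∧ (F.coeff e.2).coeff a ≠ 0 := by
  classical
  have h1 : e ∈ F.support.biUnion fun j => (F.coeff j).support.image fun a => (cst a, j) := by
    unfold toG at he
    have h2 := Finsupp.support_finsetSum he
    obtain ⟨j, hj, h3⟩ := Finset.mem_biUnion.1 h2
    obtain ⟨a, ha, h4⟩ := Finset.mem_biUnion.1 (Finsupp.support_finsetSum h3)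
    have h5 := Finsupp.support_single_subset h4
    rw [Finset.mem_singleton] at h5
    exact Finset.mem_biUnion.2 ⟨j, hj, Finset.mem_image.2 ⟨a, ha, h5.symm⟩⟩
  obtain ⟨j, -, h3⟩ := Finset.mem_biUnion.1 h1
  obtain ⟨a, ha, rfl⟩ := Finset.mem_image.1 h3
  exact ⟨a, rfl, MvPolynomial.mem_support_iff.1 ha⟩

theorem toG_deg {F : (MvPolynomial (Fin m) K)[X]} {N : ℕ} (hF : F.natDegree ≤ N) :
    ∀ e ∈ (toG F).support, e.2 ≤ N := by
  intro e he
  obtain ⟨a, -, h⟩ := toG_supp he
  by_contra hcon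
  apply h
  rw [coeff_eq_zero_of_natDegree_lt (by omega), MvPolynomial.coeff_zero]

theorem mem_expo1 {F : (MvPolynomial (Fin m) K)[X]} {μ : Fin m → ℤ} :
    μ ∈ expo1 (toG F) ↔ ∃ a ∈ exps F, cst a = μ := by
  classical
  unfold expo1
  rw [Finset.mem_image]
  constructor
  · rintro ⟨e, he, rfl⟩
    obtain ⟨a, h1, h2⟩ := toG_supp he
    exact ⟨a, mem_exps.2 ⟨e.2, h2⟩, by rw [h1]⟩
  · rintro ⟨a, ha, rfl⟩
    obtain ⟨j, hj⟩ := mem_exps.1 ha
    refine ⟨(cst a, j), ?_, rfl⟩
    rw [Finsupp.mem_support_iff, toG_apply]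
    exact hj

theorem gpol_toG (F : (MvPolynomial (Fin m) K)[X]) (a : Fin m →₀ ℕ) :
    gpol (toG F) 0 (cst a) = prt F a := by
  ext j
  rw [coeff_gpol, smul_zero, sub_zero, toG_apply, coeff_prt]

theorem pol_toG (F : (MvPolynomial (Fin m) K)[X]) (u : Fin m → K) :
    pol (toG F) 0 0 u = F.map (MvPolynomial.eval u) := by
  classical
  ext j
  rw [Polynomial.coeff_map, MvPolynomial.eval_eq']
  unfold pol
  rw [finsetSum_coeff]
  simp only [coeff_monomial]
  have h1 : ∑ e ∈ (toG F).support, (if e.2 = j then toG F e * mono u (e.1 + e.2 • 0 - 0) else 0) =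
      ∑ e ∈ (toG F).support.filter fun e => e.2 = j, toG F e * mono u e.1 := by
    rw [Finset.sum_filter]
    refine Finset.sum_congr rfl fun e _ => ?_
    rw [smul_zero, add_zero, sub_zero]
  rw [h1]
  refine Finset.sum_bij' (fun e _ => Finsupp.equivFunOnFinite.symm fun i => (e.1 i).toNat)
    (fun a _ => (cst a, j)) ?_ ?_ ?_ ?_ ?_
  · intro e he
    rw [Finset.mem_filter] at he
    obtain ⟨a, h2, h3⟩ := toG_supp he.1
    have h4 : (Finsupp.equivFunOnFinite.symm fun i => (e.1 i).toNat) = a := by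
      rw [h2]
      ext i
      show ((a i : ℤ)).toNat = a i
      exact Int.toNat_natCast _
    rw [h4, MvPolynomial.mem_support_iff, ← he.2]
    exact h3
  · intro a ha
    rw [Finset.mem_filter, Finsupp.mem_support_iff, toG_apply]
    exact ⟨MvPolynomial.mem_support_iff.1 ha, rfl⟩
  · intro e he
    rw [Finset.mem_filter] at he
    obtain ⟨a, h2, h3⟩ := toG_supp he.1
    have h4 : (Finsupp.equivFunOnFinite.symm fun i => (e.1 i).toNat) = a := by
      rw [h2]
      ext i
      show ((a i : ℤ)).toNat = a i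
      exact Int.toNat_natCast _
    rw [h4, ← he.2]
    exact h2.symm
  · intro a _
    ext i
    show ((a i : ℤ)).toNat = a i
    exact Int.toNat_natCast _
  · intro e he
    rw [Finset.mem_filter] at he
    obtain ⟨a, h2, h3⟩ := toG_supp he.1
    have h4 : (Finsupp.equivFunOnFinite.symm fun i => (e.1 i).toNat) = a := by
      rw [h2]
      ext i
      show ((a i : ℤ)).toNat = a i
      exact Int.toNat_natCast _
    rw [h4]
    have h5 : toG F e = (F.coeff j).coeff a := by
      rw [h2, toG_apply, he.2]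
    have h6 : mono u e.1 = ∏ i, u i ^ a i := by
      rw [h2]
      exact mono_cst u a
    rw [h5, h6]

theorem mx_toG {k : Type} [Field k] [NumberField k] (F : (MvPolynomial (Fin m) k)[X])
    (f : AbsoluteValue k ℝ) (u : Fin m → k) :
    mx (toG F) f u = ⨆ a : (exps F : Set (Fin m →₀ ℕ)), f (mnl u a.1) := by
  unfold mx
  let e : (exps F : Set (Fin m →₀ ℕ)) ≃ (expo1 (toG F) : Set (Fin m → ℤ)) :=
    Equiv.ofBijective (fun a => ⟨cst a.1, mem_expo1.2 ⟨a.1, a.2, rfl⟩⟩) ⟨by
      intro a b hab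
      exact Subtype.ext (cst_inj (congrArg Subtype.val hab)), by
      rintro ⟨μ, hμ⟩
      obtain ⟨a, ha, rfl⟩ := mem_expo1.1 hμ
      exact ⟨⟨a, ha⟩, rfl⟩⟩
  rw [← e.iSup_comp]
  congr 1
  funext a
  show f (mono u (cst a.1)) = _
  rw [mono_cst]

theorem dt_cst (θ : Fin m → ℝ) (a : Fin m →₀ ℕ) : dt θ (cst a) = ∑ i, (a i : ℝ) * θ i := by
  unfold dt cst
  refine Finset.sum_congr rfl fun i _ => ?_
  push_cast
  rfl

end

end Pool.Agent.Run7.h489.NF
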